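import Pool.Agent.W666.GB.Main

/-!
# The sign of the Gauss–Bonnet–Chern integrand after subtracting constant curvature
-/

set_option autoImplicit false

namespace Pool.Agent.Y489.SM

open Finset Pool.Agent.W666.GB

section reindex

variable {B T : Type} [Fintype B] [DecidableEq B] [Fintype T] [DecidableEq T]

theorem Yf_reindex (f : T ≃ B) (C : B × Bool → B × Bool → B × Bool → B × Bool → ℝ) :
    Yf (pb C (fun a : T × Bool => (f a.1, a.2))) = Yf C := by
  set g : T × Bool ≃ B × Bool := f.prodCongr (Equiv.refl Bool) with hg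
  have hgf : ∀ a : T × Bool, (f a.1, a.2) = g a := fun a => rfl
  have hs : ∀ σ : Equiv.Perm (T × Bool), sn (g.permCongr σ) = sn σ := by
    intro σ
    simp only [sn, Equiv.Perm.sign_permCongr]
  rw [Yf, Yf, ← Equiv.sum_comp g.permCongr]
  refine Finset.sum_congr rfl fun σ _ => ?_
  rw [← Equiv.sum_comp g.permCongr]
  refine Finset.sum_congr rfl fun τ _ => ?_
  rw [hs, hs, ← Equiv.prod_comp f]
  congr 1
  refine Finset.prod_congr rfl fun b _ => ?_
  have h1 : ∀ (ρ : Equiv.Perm (T × Bool)) (β : Bool), (g.permCongr ρ) (f b, β) = g (ρ (b, β)) := by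
    intro ρ β
    rw [Equiv.permCongr_apply]
    congr 2
    rw [Equiv.symm_apply_eq]
    rfl
  simp only [pb, hgf, h1]

end reindex

section expand

variable {m : ℕ} {V : Type} [NormedAddCommGroup V] [InnerProductSpace ℝ V]

/-- the tensor pulled back along a linear map -/
def pull {V' : Type} [NormedAddCommGroup V'] [InnerProductSpace ℝ V'] (E : V → V → V → V → ℝ)
    (L : V' →ₗ[ℝ] V) (x y z w : V') : ℝ :=
  E (L x) (L y) (L z) (L w)

theorem pull_curv {V' : Type} [NormedAddCommGroup V'] [InnerProductSpace ℝ V']
    {E : V → V → V → V → ℝ} (h : AlgCurv E) (L : V' →ₗ[ℝ] V) : AlgCurv (pull E L) where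
  add x x' y z w := by simp only [pull, map_add, h.add]
  smul t x y z w := by simp only [pull, map_smul, h.smul]
  anti x y z w := h.anti _ _ _ _
  pair x y z w := h.pair _ _ _ _
  bianchi x y z w := h.bianchi _ _ _ _

/-- the standard orthonormal basis in dimension `2 k` -/
noncomputable def sb (k : ℕ) : OrthonormalBasis (Fin k × Bool) ℝ (EuclideanSpace ℝ (Fin k × Bool)) :=
  EuclideanSpace.basisFun _ ℝ

/-- `E` minus `c` times the tensor of constant curvature one -/
noncomputable def shift (c : ℝ) (E : V → V → V → V → ℝ) (x y z w : V) : ℝ :=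
  E x y z w - c * (inner ℝ x z * inner ℝ y w - inner ℝ x w * inner ℝ y z)

theorem shift_curv {E : V → V → V → V → ℝ} (h : AlgCurv E) (c : ℝ) : AlgCurv (shift c E) where
  add x x' y z w := by
    simp only [shift, h.add, inner_add_left]
    ring
  smul t x y z w := by
    simp only [shift, h.smul, inner_smul_left, conj_trivial]
    ring
  anti x y z w := by
    simp only [shift, h.anti x y]
    ring
  pair x y z w := by
    simp only [shift, h.pair x y z w]
    rw [real_inner_comm x z, real_inner_comm y w, real_inner_comm x w, real_inner_comm y z]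
    ring
  bianchi x y z w := by
    have := h.bianchi x y z w
    simp only [shift]
    rw [real_inner_comm x z, real_inner_comm x y, real_inner_comm z y]
    linarith

/-- If the integrand of all tensors pulled back from `E` to even dimensional spaces has the Hopf
sign, then so has that of `E - c`, and its absolute value is at least that of constant curvature
`-c`. -/
theorem shift_bound (e : OrthonormalBasis (Fin m × Bool) ℝ V) {E : V → V → V → V → ℝ}
    (hE : AlgCurv E) (hk : ∀ (k : ℕ) (L : EuclideanSpace ℝ (Fin k × Bool) →ₗ[ℝ] V), 0 < k →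
      0 ≤ (-1) ^ k * gbc (sb k) (pull E L)) {c : ℝ} (hc : 0 ≤ c) :
    roundGB m c ≤ (-1) ^ m * gbc e (shift c E) := by
  have hπ := Real.pi_pos
  set C : Fin m × Bool → Fin m × Bool → Fin m × Bool → Fin m × Bool → ℝ :=
    Cl (EE e E 0) with hC
  have hEE : EE e (shift c E) c = EE e E 0 := by
    funext i j k l
    simp only [EE, shift, unitCurv, inner_e]
    ring
  rw [neg_gbc_eq e (shift_curv hE c) c, hEE, Yf_expand]
  have hT : ∀ T : Finset (Fin m), T.Nonempty →
      0 ≤ c ^ (Fintype.card (Fin m) - T.card) *
        ∑ σ : Equiv.Perm (Fin m × Bool), yf (pb C (σ ∘ iT T)) := by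
    intro T hTne
    refine mul_nonneg (pow_nonneg hc _) ?_
    have h1 := sum_perm_eq (P := T × Bool) (J := Fin m × Bool) (fun i => yf (pb C i))
      (fun i hi => yf_noninj C i hi) (iT T) (iT_injective T)
    have h2 := sum_Yf (T := T) (J := Fin m × Bool) C
    have h3 : 0 ≤ ∑ i : T × Bool → Fin m × Bool, Yf (pb C i) := by
      refine Finset.sum_nonneg fun i _ => ?_
      set k := Fintype.card T with hkdef
      have hkpos : 0 < k := by
        rw [hkdef]
        simpa using hTne
      set f : T ≃ Fin k := Fintype.equivFin T with hf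
      set u : Fin k × Bool → V := fun a => e (i (f.symm a.1, a.2)) with hu
      set L : EuclideanSpace ℝ (Fin k × Bool) →ₗ[ℝ] V :=
        ((sb k).toBasis.constr ℝ u) with hL
      have hLe : ∀ a, L (sb k a) = u a := by
        intro a
        have := (sb k).toBasis.constr_basis ℝ u a
        rw [OrthonormalBasis.coe_toBasis] at this
        exact this
      have h4 := hk k L hkpos
      rw [neg_gbc_eq (sb k) (pull_curv hE L) 0] at h4
      have h5 : (fun a b c d : Fin k × Bool => 0 * (if a = b then (1 : ℝ) else 0) *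
          (if c = d then 1 else 0) + Cl (EE (sb k) (pull E L) 0) a b c d) =
          pb (pb C i) (fun a : Fin k × Bool => (f.symm a.1, a.2)) := by
        funext a b c' d
        simp only [Cl, EE, pull, hLe, pb, hC, hu]
        ring
      rw [h5, Yf_reindex f.symm (pb C i)] at h4
      have h6 : (0 : ℝ) < 2 ^ k / ((8 * Real.pi) ^ k * k.factorial) := by positivity
      exact nonneg_of_mul_nonneg_right h4 h6
    have h4 : 0 ≤ ∑ i : T × Bool → Fin m × Bool, yf (pb C i) := by
      rw [h2] at h3
      have : (0 : ℝ) < (Fintype.card (T × Bool)).factorial := by positivity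
      exact nonneg_of_mul_nonneg_right h3 this
    have h5 : (0 : ℝ) < ((Fintype.card (Fin m × Bool)).descFactorial (Fintype.card (T × Bool)) :
        ℝ) := by
      have h6 : Fintype.card (T × Bool) ≤ Fintype.card (Fin m × Bool) :=
        Fintype.card_le_of_injective _ (iT_injective T)
      have h7 : 0 < (Fintype.card (Fin m × Bool)).descFactorial (Fintype.card (T × Bool)) := by
        rw [Nat.pos_iff_ne_zero, Ne, Nat.descFactorial_eq_zero_iff_lt]
        omega
      exact_mod_cast h7
    have h6 : 0 ≤ ((Fintype.card (Fin m × Bool)).descFactorial (Fintype.card (T × Bool)) : ℝ) *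
        ∑ σ : Equiv.Perm (Fin m × Bool), yf (pb C (σ ∘ iT T)) := by
      rw [h1]
      positivity
    exact nonneg_of_mul_nonneg_right h6 h5
  have hempty : c ^ (Fintype.card (Fin m) - (∅ : Finset (Fin m)).card) *
      ∑ σ : Equiv.Perm (Fin m × Bool), yf (pb C (σ ∘ iT (∅ : Finset (Fin m)))) =
      (2 * m).factorial * c ^ m := by
    have h1 : ∀ σ : Equiv.Perm (Fin m × Bool),
        yf (pb C (σ ∘ iT (∅ : Finset (Fin m)))) = 1 := by
      intro σ
      have hem : IsEmpty ((∅ : Finset (Fin m)) × Bool) :=
        ⟨fun a => absurd a.1.2 (Finset.notMem_empty _)⟩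
      have hem' : IsEmpty ((∅ : Finset (Fin m))) := ⟨fun a => absurd a.2 (Finset.notMem_empty _)⟩
      have h2 : ∀ ρ : Equiv.Perm ((∅ : Finset (Fin m)) × Bool), sn ρ = 1 := by
        intro ρ
        rw [Subsingleton.elim ρ 1, sn_one]
      rw [yf]
      have hu : Unique (Equiv.Perm ((∅ : Finset (Fin m)) × Bool)) := Equiv.permUnique
      rw [Fintype.sum_unique, Fintype.prod_empty, mul_one, h2]
    simp only [h1, Finset.sum_const, Finset.card_univ, Fintype.card_perm, nsmul_eq_mul, mul_one,
      Fintype.card_fin, Finset.card_empty, Nat.sub_zero, Fintype.card_prod, Fintype.card_bool]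
    rw [mul_comm m 2]
    ring
  have hsum : ((2 * m).factorial : ℝ) * c ^ m ≤ ∑ T : Finset (Fin m),
      c ^ (Fintype.card (Fin m) - T.card) *
        ∑ σ : Equiv.Perm (Fin m × Bool), yf (pb C (σ ∘ iT T)) := by
    rw [← hempty]
    refine Finset.single_le_sum (f := fun T : Finset (Fin m) =>
      c ^ (Fintype.card (Fin m) - T.card) *
        ∑ σ : Equiv.Perm (Fin m × Bool), yf (pb C (σ ∘ iT T))) ?_ (Finset.mem_univ ∅)
    intro T _
    rcases T.eq_empty_or_nonempty with h | h
    · subst h
      rw [hempty]
      positivity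
    · exact hT T h
  have h1 : roundGB m c = 2 ^ m / ((8 * Real.pi) ^ m * m.factorial) *
      ((2 * m).factorial * c ^ m) := by
    unfold roundGB
    have h8 : (8 * Real.pi) ^ m = 2 ^ m * (4 * Real.pi) ^ m := by
      rw [← mul_pow]
      congr 1
      ring
    rw [h8]
    field_simp
  rw [h1]
  exact mul_le_mul_of_nonneg_left hsum (by positivity)

end expand

end Pool.Agent.Y489.SM
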