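import Pool.Agent.Y489.SM.La

/-!
# The sign of the determinant: index at most half, and symmetric spectrum
-/

set_option autoImplicit false

namespace Pool.Agent.Y489.SM

open Finset Polynomial

section index

variable {J V : Type} [Fintype J] [DecidableEq J] [AddCommGroup V] [Module ℝ V]

/-- The span of the vectors with positive diagonal entries. -/
theorem exists_pos_space (B : V →ₗ[ℝ] V →ₗ[ℝ] ℝ) (lam : J → ℝ) (v : J → V)
    (hv : LinearIndependent ℝ v) (hd : ∀ i j, B (v i) (v j) = if i = j then lam i else 0)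
    (S : Finset J) (hS : ∀ i ∈ S, 0 < lam i) :
    ∃ W : Submodule ℝ V, Module.finrank ℝ W = S.card ∧ ∀ x ∈ W, x ≠ 0 → 0 < B x x := by
  refine ⟨Submodule.span ℝ (Set.range fun i : S => v i), ?_, ?_⟩
  · have h1 : LinearIndependent ℝ (fun i : S => v i) := hv.comp _ Subtype.val_injective
    rw [finrank_span_eq_card h1]
    simp
  · intro x hx hx0
    rw [Submodule.mem_span_range_iff_exists_fun] at hx
    obtain ⟨c, rfl⟩ := hx
    have h1 : B (∑ i, c i • v i) (∑ i, c i • v i) = ∑ i : S, c i ^ 2 * lam i := by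
      simp only [map_sum, LinearMap.sum_apply, map_smul, LinearMap.smul_apply, smul_eq_mul, hd]
      refine Finset.sum_congr rfl fun i _ => ?_
      rw [Finset.sum_eq_single i]
      · simp only [if_true]
        ring
      · intro j _ hj
        rw [if_neg fun h => hj (Subtype.ext h)]
        simp
      · simp
    rw [h1]
    have h2 : ∃ i, c i ≠ 0 := by
      by_contra hcon
      push Not at hcon
      exact hx0 (by simp [hcon])
    obtain ⟨i, hi⟩ := h2
    refine Finset.sum_pos' (fun j _ => mul_nonneg (sq_nonneg _) (hS j j.2).le)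
      ⟨i, Finset.mem_univ i, mul_pos (by positivity) (hS i i.2)⟩

end index

section sign

variable {m : ℕ}

theorem prod_sign (lam : Fin m × Bool → ℝ) {k : ℕ} (hk : k ≤ m)
    (hp : (univ.filter fun i => 0 < lam i).card ≤ k)
    (hn : (univ.filter fun i => lam i < 0).card ≤ k) :
    0 ≤ (-1) ^ m * ∏ i, lam i ∧ (k < m → ∏ i, lam i = 0) := by
  by_cases h0 : ∃ i, lam i = 0
  · obtain ⟨i, hi⟩ := h0
    have : ∏ i, lam i = 0 := Finset.prod_eq_zero (Finset.mem_univ i) hi
    rw [this]
    simp
  · push Not at h0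
    have hc : (univ.filter fun i => 0 < lam i).card + (univ.filter fun i => lam i < 0).card =
        2 * m := by
      have h1 : (univ.filter fun i => lam i < 0) = univ.filter fun i => ¬ 0 < lam i := by
        refine Finset.filter_congr fun i _ => ?_
        rw [not_lt]
        exact ⟨le_of_lt, fun h => lt_of_le_of_ne h (h0 i)⟩
      rw [h1, Finset.card_filter_add_card_filter_not]
      simp [mul_comm]
    have hneg : (univ.filter fun i => lam i < 0).card = m := by omega
    refine ⟨?_, fun h => by omega⟩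
    have h2 : ∏ i, lam i = (∏ i, |lam i|) * ∏ i, (if lam i < 0 then (-1 : ℝ) else 1) := by
      rw [← Finset.prod_mul_distrib]
      refine Finset.prod_congr rfl fun i _ => ?_
      split_ifs with h
      · rw [abs_of_neg h]
        ring
      · rw [abs_of_nonneg (not_lt.1 h)]
        ring
    have h3 : ∏ i, (if lam i < 0 then (-1 : ℝ) else 1) = (-1) ^ m := by
      rw [Finset.prod_ite]
      simp [hneg]
    rw [h2, h3]
    have h4 : ((-1 : ℝ) ^ m) * ((∏ i, |lam i|) * (-1) ^ m) = ∏ i, |lam i| := by
      have : ((-1 : ℝ) ^ m) * (-1) ^ m = 1 := by rw [← mul_pow]; simp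
      linear_combination (∏ i, |lam i|) * this
    rw [h4]
    exact Finset.prod_nonneg fun i _ => abs_nonneg _

variable {V : Type} [NormedAddCommGroup V] [InnerProductSpace ℝ V]

/-- If no subspace of dimension larger than `k ≤ m` is definite for a symmetric bilinear form in
dimension `2 m`, then the determinant has the sign of `(-1) ^ m`. -/
theorem det_sign (e : OrthonormalBasis (Fin m × Bool) ℝ V) (B : V →ₗ[ℝ] V →ₗ[ℝ] ℝ)
    (hB : ∀ x y, B x y = B y x) {k : ℕ} (hk : k ≤ m)
    (hp : ∀ W : Submodule ℝ V, (∀ x ∈ W, x ≠ 0 → 0 < B x x) → Module.finrank ℝ W ≤ k)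
    (hn : ∀ W : Submodule ℝ V, (∀ x ∈ W, x ≠ 0 → B x x < 0) → Module.finrank ℝ W ≤ k) :
    0 ≤ (-1) ^ m * (Matrix.of fun i j => B (e i) (e j)).det ∧
      (k < m → (Matrix.of fun i j => B (e i) (e j)).det = 0) := by
  obtain ⟨lam, v, hv, hd, hdet, -⟩ := exists_diag e B hB
  rw [hdet]
  refine prod_sign lam hk ?_ ?_
  · obtain ⟨W, h1, h2⟩ := exists_pos_space B lam v hv hd (univ.filter fun i => 0 < lam i)
      fun i hi => (Finset.mem_filter.1 hi).2
    rw [← h1]
    exact hp W h2
  · obtain ⟨W, h1, h2⟩ := exists_pos_space (-B) (-lam) v hv (fun i j => by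
      simp only [LinearMap.neg_apply, hd, Pi.neg_apply]
      split_ifs <;> simp) (univ.filter fun i => lam i < 0)
      fun i hi => by
        have := (Finset.mem_filter.1 hi).2
        simpa using this
    rw [← h1]
    refine hn W fun x hx hx0 => ?_
    have := h2 x hx hx0
    simpa using this

end sign

section spectrum

variable {m : ℕ}

/-- the product `∏ (r lam i + s i)` -/
noncomputable def gg (lam : Fin m × Bool → ℝ) (r s : ℝ) : ℂ :=
  ∏ i, ((r * lam i : ℝ) + (s : ℂ) * Complex.I)

theorem gg_continuous (lam : Fin m × Bool → ℝ) :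
    Continuous fun q : ℝ × ℝ => gg lam q.1 q.2 := by
  unfold gg
  fun_prop

theorem gg_smul (lam : Fin m × Bool → ℝ) (r s t : ℝ) :
    gg lam (t * r) (t * s) = (t : ℂ) ^ (2 * m) * gg lam r s := by
  unfold gg
  have h1 : ((t : ℂ)) ^ (2 * m) = ∏ _i : Fin m × Bool, (t : ℂ) := by
    simp [mul_comm]
  rw [h1, ← Finset.prod_mul_distrib]
  refine Finset.prod_congr rfl fun i _ => ?_
  push_cast
  ring

theorem gg_conj (lam : Fin m × Bool → ℝ) (r s : ℝ) :
    (starRingEnd ℂ) (gg lam r s) = gg lam r (-s) := by
  unfold gg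
  rw [map_prod]
  refine Finset.prod_congr rfl fun i _ => ?_
  simp

theorem gg_normSq (lam : Fin m × Bool → ℝ) (r s : ℝ) :
    Complex.normSq (gg lam r s) = ∏ i, ((r * lam i) ^ 2 + s ^ 2) := by
  unfold gg
  rw [map_prod]
  refine Finset.prod_congr rfl fun i _ => ?_
  rw [Complex.normSq_apply]
  simp
  ring

/-- Spectra symmetric about the origin. -/
theorem gg_sign (lam : Fin m × Bool → ℝ) (hev : ∀ s, gg lam 1 (-s) = gg lam 1 s) (s : ℝ) :
    (s ^ 2) ^ m ≤ (-1) ^ m * (gg lam 1 s).re := by
  -- real values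
  have him : ∀ r s, (gg lam r s).im = 0 := by
    have h1 : ∀ s, (gg lam 1 s).im = 0 := by
      intro s
      have h2 := gg_conj lam 1 s
      rw [hev] at h2
      have h3 := congrArg Complex.im h2
      simp only [Complex.conj_im] at h3
      linarith
    intro r s
    by_cases hr : r = 0
    · subst hr
      have : gg lam 0 s = (((-1) ^ m * (s ^ 2) ^ m : ℝ) : ℂ) := by
        unfold gg
        have hI : ∀ i : Fin m × Bool, ((0 * lam i : ℝ) : ℂ) + (s : ℂ) * Complex.I =
          (s : ℂ) * Complex.I := fun i => by simp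
        rw [Finset.prod_congr rfl fun i _ => hI i, Finset.prod_const]
        have hc : (univ : Finset (Fin m × Bool)).card = 2 * m := by simp [mul_comm]
        rw [hc, pow_mul, mul_pow, Complex.I_sq]
        push_cast
        ring
      rw [this, Complex.ofReal_im]
    · have := gg_smul lam 1 (s / r) r
      rw [mul_one, mul_div_cancel₀ _ hr] at this
      rw [this, ← Complex.ofReal_pow, Complex.im_ofReal_mul, h1, mul_zero]
  have hsq : ∀ r s, (gg lam r s).re ^ 2 = ∏ i, ((r * lam i) ^ 2 + s ^ 2) := by
    intro r s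
    rw [← gg_normSq, Complex.normSq_apply, him r s]
    ring
  have hlow : ∀ r s, ((s ^ 2) ^ m) ^ 2 ≤ (gg lam r s).re ^ 2 := by
    intro r s
    rw [hsq]
    have : ((s ^ 2) ^ m) ^ 2 = ∏ _i : Fin m × Bool, s ^ 2 := by
      simp only [Finset.prod_const, Finset.card_univ, Fintype.card_prod, Fintype.card_fin,
        Fintype.card_bool]
      rw [← pow_mul]
    rw [this]
    refine Finset.prod_le_prod (fun i _ => sq_nonneg _) fun i _ => ?_
    nlinarith [sq_nonneg (r * lam i)]
  -- nonzero `s`
  have hmain : ∀ s : ℝ, s ≠ 0 → (s ^ 2) ^ m ≤ (-1) ^ m * (gg lam 1 s).re := by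
    intro s hs
    have hs2 : 0 < (s ^ 2) ^ m := by positivity
    have hpos : 0 ≤ (-1) ^ m * (gg lam 1 s).re := by
      by_contra hcon
      push Not at hcon
      have hc : ContinuousOn (fun r : ℝ => (-1) ^ m * (gg lam r s).re) (Set.Icc 0 1) := by
        refine Continuous.continuousOn ?_
        have := (gg_continuous lam).comp (by fun_prop : Continuous fun r : ℝ => (r, s))
        exact continuous_const.mul (Complex.continuous_re.comp this)
      have h0 : (-1) ^ m * (gg lam 0 s).re = (s ^ 2) ^ m := by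
        have : gg lam 0 s = (((-1) ^ m * (s ^ 2) ^ m : ℝ) : ℂ) := by
          unfold gg
          have hI : ∀ i : Fin m × Bool, ((0 * lam i : ℝ) : ℂ) + (s : ℂ) * Complex.I =
            (s : ℂ) * Complex.I := fun i => by simp
          rw [Finset.prod_congr rfl fun i _ => hI i, Finset.prod_const]
          have hc : (univ : Finset (Fin m × Bool)).card = 2 * m := by simp [mul_comm]
          rw [hc, pow_mul, mul_pow, Complex.I_sq]
          push_cast
          ring
        rw [this, Complex.ofReal_re, ← mul_assoc, ← mul_pow]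
        simp
      have hivt := intermediate_value_Icc' (zero_le_one' ℝ) hc
      have hmem : (0 : ℝ) ∈ Set.Icc ((-1) ^ m * (gg lam 1 s).re) ((-1) ^ m * (gg lam 0 s).re) := by
        rw [h0]
        exact ⟨hcon.le, hs2.le⟩
      obtain ⟨r, -, hr⟩ := hivt hmem
      have hr' : (gg lam r s).re = 0 := by
        rcases mul_eq_zero.1 hr with h | h
        · exact absurd h (by positivity)
        · exact h
      have := hlow r s
      rw [hr'] at this
      nlinarith [pow_pos hs2 2]
    have h1 := hlow 1 s
    have h2 : ((-1) ^ m * (gg lam 1 s).re) ^ 2 = (gg lam 1 s).re ^ 2 := by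
      rw [mul_pow, ← pow_mul, mul_comm m 2, pow_mul]
      simp
    rw [← h2] at h1
    exact (pow_le_pow_iff_left₀ hs2.le hpos two_ne_zero).1 h1
  by_cases hs : s = 0
  · subst hs
    have hlim1 : Filter.Tendsto (fun s : ℝ => (s ^ 2) ^ m) (nhdsWithin 0 {0}ᶜ)
        (nhds (((0 : ℝ) ^ 2) ^ m)) := by
      refine Filter.Tendsto.mono_left ?_ nhdsWithin_le_nhds
      exact (by fun_prop : Continuous fun s : ℝ => (s ^ 2) ^ m).tendsto 0
    have hlim2 : Filter.Tendsto (fun s : ℝ => (-1) ^ m * (gg lam 1 s).re) (nhdsWithin 0 {0}ᶜ)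
        (nhds ((-1) ^ m * (gg lam 1 0).re)) := by
      refine Filter.Tendsto.mono_left ?_ nhdsWithin_le_nhds
      have := (gg_continuous lam).comp (by fun_prop : Continuous fun s : ℝ => ((1 : ℝ), s))
      exact (continuous_const.mul (Complex.continuous_re.comp this)).tendsto 0
    refine le_of_tendsto_of_tendsto hlim1 hlim2 ?_
    filter_upwards [self_mem_nhdsWithin] with s hs
    exact hmain s hs
  · exact hmain s hs

end spectrum

end Pool.Agent.Y489.SM
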