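import Pool.Agent.Y489.SM.Lc

/-!
# The nullity of a bilinear form with nonpositive curvature
-/

set_option autoImplicit false

namespace Pool.Agent.Y489.SM

open Finset

variable {V W : Type} [NormedAddCommGroup V] [InnerProductSpace ℝ V] [NormedAddCommGroup W]
  [InnerProductSpace ℝ W]

theorem asym_perp {β : V →ₗ[ℝ] V →ₗ[ℝ] W} (hs : ∀ x y, β x y = β y x)
    (hK : ∀ x y, inner ℝ (β x x) (β y y) - ‖β x y‖ ^ 2 ≤ 0) {x u : V} (hx : β x x = 0)
    (hu : β x u = 0) (y : V) : inner ℝ (β x y) (β u u) = 0 := by
  have h1 : ∀ t : ℝ, 0 ≤ (-2 * inner ℝ (β x y) (β u u)) * t +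
      (‖β y u‖ ^ 2 - inner ℝ (β y y) (β u u)) * t ^ 2 + 0 * t ^ 3 + 0 * t ^ 4 := by
    intro t
    have h2 := hK (x + t • y) u
    have h3 : β (x + t • y) (x + t • y) = (2 * t) • β x y + t ^ 2 • β y y := by
      simp only [map_add, LinearMap.add_apply, map_smul, LinearMap.smul_apply, hs y x, hx]
      module
    have h4 : β (x + t • y) u = t • β y u := by
      simp only [map_add, LinearMap.add_apply, map_smul, LinearMap.smul_apply, hu]
      module
    rw [h3, h4, inner_add_left, inner_smul_left, inner_smul_left, norm_smul, mul_pow,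
      Real.norm_eq_abs, sq_abs] at h2
    simp only [conj_trivial] at h2
    nlinarith
  have := (quartic _ _ _ _ h1).1
  linarith

theorem asym_perp' {β : V →ₗ[ℝ] V →ₗ[ℝ] W} (hs : ∀ x y, β x y = β y x)
    (hK : ∀ x y, inner ℝ (β x x) (β y y) - ‖β x y‖ ^ 2 ≤ 0) {x u u' : V} (hx : β x x = 0)
    (hu : β x u = 0) (hu' : β x u' = 0) (y : V) : inner ℝ (β x y) (β u u') = 0 := by
  have h1 := asym_perp hs hK hx hu y
  have h2 := asym_perp hs hK hx hu' y
  have h3 := asym_perp hs hK (u := u + u') hx (by rw [map_add, hu, hu', add_zero]) y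
  have h4 : β (u + u') (u + u') = β u u + (2 : ℝ) • β u u' + β u' u' := by
    simp only [map_add, LinearMap.add_apply, hs u' u]
    module
  rw [h4, inner_add_right, inner_add_right, h1, h2, inner_smul_right] at h3
  linarith

variable [FiniteDimensional ℝ V] [FiniteDimensional ℝ W]

/-- Asymptotic subspaces of codimension at most the dimension of the target. -/
theorem exists_asym (β : V →ₗ[ℝ] V →ₗ[ℝ] W) (hs : ∀ x y, β x y = β y x)
    (hK : ∀ x y, inner ℝ (β x x) (β y y) - ‖β x y‖ ^ 2 ≤ 0) (n : ℕ) :
    ∀ N : Submodule ℝ V, Module.finrank ℝ N = n → ∀ U : Submodule ℝ W,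
      (∀ x ∈ N, ∀ y ∈ N, β x y ∈ U) → ∃ T ≤ N, (∀ x ∈ T, ∀ y ∈ T, β x y = 0) ∧
        Module.finrank ℝ N ≤ Module.finrank ℝ T + Module.finrank ℝ U := by
  induction n using Nat.strong_induction_on with
  | _ n ih =>
    intro N hN U hU
    by_cases hle : Module.finrank ℝ N ≤ Module.finrank ℝ U
    · exact ⟨⊥, bot_le, fun x hx y _ => by
        rw [(Submodule.mem_bot ℝ).1 hx]
        simp, by omega⟩
    push Not at hle
    obtain ⟨⟨x0, hx0N⟩, hne, hx0⟩ := otsuki (β.domRestrict₁₂ N N)
      (fun x y => by simpa [LinearMap.domRestrict₁₂_apply] using hs x y)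
      (fun x y => by simpa [LinearMap.domRestrict₁₂_apply] using hK x y) U
      (fun x y => by simpa [LinearMap.domRestrict₁₂_apply] using hU x x.2 y y.2) hle
    have hx0ne : x0 ≠ 0 := fun h => hne (Subtype.ext h)
    have hx00 : β x0 x0 = 0 := by simpa [LinearMap.domRestrict₁₂_apply] using hx0
    -- the kernel and the image of `β x0` on `N`
    set N0 : Submodule ℝ V := N ⊓ LinearMap.ker (β x0) with hN0
    set R : Submodule ℝ W := N.map (β x0) with hR
    have hrn : Module.finrank ℝ R + Module.finrank ℝ N0 = Module.finrank ℝ N := by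
      have h1 := LinearMap.finrank_range_add_finrank_ker ((β x0).domRestrict N)
      rw [LinearMap.range_domRestrict, LinearMap.ker_domRestrict] at h1
      have h2 : Module.finrank ℝ (Submodule.comap N.subtype (LinearMap.ker (β x0))) =
          Module.finrank ℝ N0 := by
        rw [hN0, ← Submodule.map_comap_subtype]
        exact (LinearEquiv.finrank_eq (Submodule.equivSubtypeMap N _))
      rw [h2] at h1
      exact h1
    have hRU : R ≤ U := by
      rintro _ ⟨y, hy, rfl⟩
      exact hU x0 hx0N y hy
    set U0 : Submodule ℝ W := Rᗮ ⊓ U with hU0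
    have hUd : Module.finrank ℝ R + Module.finrank ℝ U0 = Module.finrank ℝ U :=
      Submodule.finrank_add_inf_finrank_orthogonal hRU
    set X : Submodule ℝ V := Submodule.span ℝ {x0} with hX
    have hXN0 : X ≤ N0 := by
      rw [hX, Submodule.span_singleton_le_iff_mem]
      exact ⟨hx0N, by simpa using hx00⟩
    set N1 : Submodule ℝ V := Xᗮ ⊓ N0 with hN1
    have hNd : Module.finrank ℝ X + Module.finrank ℝ N1 = Module.finrank ℝ N0 :=
      Submodule.finrank_add_inf_finrank_orthogonal hXN0
    have hXd : Module.finrank ℝ X = 1 := finrank_span_singleton hx0ne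
    have hN0U : ∀ u ∈ N0, ∀ u' ∈ N0, β u u' ∈ U0 := by
      intro u hu u' hu'
      refine ⟨?_, hU u hu.1 u' hu'.1⟩
      rw [SetLike.mem_coe, Submodule.mem_orthogonal]
      rintro _ ⟨y, hy, rfl⟩
      exact asym_perp' hs hK hx00 hu.2 hu'.2 y
    obtain ⟨T1, hT1, hT1z, hT1d⟩ := ih (Module.finrank ℝ N1) (by omega) N1 rfl U0
      fun x hx y hy => hN0U x hx.2 y hy.2
    refine ⟨T1 ⊔ X, sup_le (fun x hx => (hT1 hx).2.1) (fun x hx => (hXN0 hx).1), ?_, ?_⟩
    · intro x hx y hy
      rw [Submodule.mem_sup] at hx hy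
      obtain ⟨t, ht, a, ha, rfl⟩ := hx
      obtain ⟨t', ht', a', ha', rfl⟩ := hy
      rw [hX, Submodule.mem_span_singleton] at ha ha'
      obtain ⟨c, rfl⟩ := ha
      obtain ⟨c', rfl⟩ := ha'
      have h1 : β x0 t = 0 := (hT1 ht).2.2
      have h2 : β x0 t' = 0 := (hT1 ht').2.2
      simp [map_add, LinearMap.add_apply, map_smul, LinearMap.smul_apply, hT1z t ht t' ht', h2,
        hs t x0, h1, hx00]
    · have h1 : T1 ⊓ X = ⊥ := by
        rw [eq_bot_iff]
        intro x hx
        have h2 : x ∈ Xᗮ := (hT1 hx.1).1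
        have h3 := (Submodule.orthogonal_disjoint X).le_bot ⟨hx.2, h2⟩
        exact h3
      have h2 := Submodule.finrank_sup_add_finrank_inf_eq T1 X
      rw [h1, finrank_bot] at h2
      omega

/-- **The nullity of a bilinear form with nonpositive curvature.** -/
theorem nullity (β : V →ₗ[ℝ] V →ₗ[ℝ] W) (hs : ∀ x y, β x y = β y x)
    (hK : ∀ x y, inner ℝ (β x x) (β y y) - ‖β x y‖ ^ 2 ≤ 0) :
    Module.finrank ℝ V ≤ Module.finrank ℝ (LinearMap.ker β) + 2 * Module.finrank ℝ W := by
  obtain ⟨T, -, hT, hTd⟩ := exists_asym β hs hK (Module.finrank ℝ V) ⊤ (finrank_top ℝ V) ⊤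
    fun _ _ _ _ => Submodule.mem_top
  rw [finrank_top, finrank_top] at hTd
  -- a regular vector
  obtain ⟨v, hv⟩ : ∃ v : V, ∀ w : V, Module.finrank ℝ (LinearMap.range ((β w).domRestrict T)) ≤
      Module.finrank ℝ (LinearMap.range ((β v).domRestrict T)) := by
    have hbd : BddAbove (Set.range fun v : V =>
        Module.finrank ℝ (LinearMap.range ((β v).domRestrict T))) := by
      refine ⟨Module.finrank ℝ W, ?_⟩
      rintro _ ⟨v, rfl⟩
      exact Submodule.finrank_le _
    obtain ⟨v, hv⟩ := Nat.sSup_mem (Set.range_nonempty _) hbd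
    refine ⟨v, fun w => ?_⟩
    simp only at hv
    rw [hv]
    exact le_csSup hbd ⟨w, rfl⟩
  have key : ∀ x ∈ T, β v x = 0 → β x = 0 := by
    intro x hx hvx
    ext w
    rw [LinearMap.zero_apply]
    by_contra hne
    have hxx : β x x = 0 := hT x hx x hx
    have hxv : β x v = 0 := by rw [hs, hvx]
    have hperp : ∀ z ∈ T, inner ℝ (β x w) (β v z) = 0 := by
      intro z hz
      exact asym_perp' hs hK hxx hxv (hT x hx z hz) w
    set r := Module.finrank ℝ (LinearMap.range ((β v).domRestrict T)) with hr
    set b := Module.finBasis ℝ (LinearMap.range ((β v).domRestrict T)) with hb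
    have hbx : ∀ i, ∃ z : T, β v z = b i := by
      intro i
      obtain ⟨z, hz⟩ := (b i).2
      exact ⟨z, hz⟩
    choose z hz using hbx
    set F : ℝ → Option (Fin r) → W := fun t o => o.casesOn' (β x w) fun i => β (v + t • w) (z i)
      with hF
    have hF0 : LinearIndependent ℝ (F 0) := by
      have h1 : LinearIndependent ℝ fun i : Fin r => β (v + (0 : ℝ) • w) (z i) := by
        have h2 : (fun i : Fin r => β (v + (0 : ℝ) • w) (z i)) =
            (LinearMap.range ((β v).domRestrict T)).subtype ∘ b := by
          funext i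
          simp [hz]
        rw [h2]
        exact b.linearIndependent.map' _ (Submodule.ker_subtype _)
      refine LinearIndependent.option h1 fun hmem => ?_
      have h3 : β x w ∈ (Submodule.span ℝ
          (Set.range fun i : Fin r => β (v + (0 : ℝ) • w) (z i)))ᗮ := by
        rw [Submodule.mem_orthogonal]
        intro u hu
        induction hu using Submodule.span_induction with
        | mem u hu =>
          obtain ⟨i, rfl⟩ := hu
          rw [real_inner_comm, zero_smul, add_zero]
          exact hperp (z i) (z i).2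
        | zero => simp
        | add u u' _ _ h h' => rw [inner_add_left, h, h', add_zero]
        | smul a u _ h => rw [inner_smul_left, h, mul_zero]
      have h4 := (Submodule.orthogonal_disjoint _).le_bot ⟨hmem, h3⟩
      exact hne ((Submodule.mem_bot ℝ).1 h4)
    have hFc : Continuous F := by
      refine continuous_pi fun o => ?_
      cases o with
      | none => exact continuous_const
      | some i =>
        have : (fun t : ℝ => F t (some i)) = fun t => β v (z i) + t • β w (z i) := by
          funext t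
          simp [hF]
        rw [this]
        fun_prop
    have hev : ∀ᶠ t in nhds (0 : ℝ), LinearIndependent ℝ (F t) :=
      hFc.continuousAt.eventually hF0.eventually
    obtain ⟨t, ht, ht0⟩ : ∃ t : ℝ, LinearIndependent ℝ (F t) ∧ t ≠ 0 := by
      have h1 : ∀ᶠ t in nhdsWithin (0 : ℝ) {0}ᶜ, LinearIndependent ℝ (F t) :=
        hev.filter_mono nhdsWithin_le_nhds
      obtain ⟨t, h2, h3⟩ := (h1.and self_mem_nhdsWithin).exists
      exact ⟨t, h2, h3⟩
    have hmem : ∀ o, F t o ∈ LinearMap.range ((β (v + t • w)).domRestrict T) := by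
      intro o
      cases o with
      | none =>
        refine ⟨t⁻¹ • ⟨x, hx⟩, ?_⟩
        simp only [map_smul, LinearMap.domRestrict_apply, map_add, LinearMap.add_apply, hvx,
          LinearMap.smul_apply, zero_add, smul_smul, inv_mul_cancel₀ ht0, one_smul]
        exact hs w x
      | some i => exact ⟨z i, rfl⟩
    have h1 : r + 1 ≤ Module.finrank ℝ (LinearMap.range ((β (v + t • w)).domRestrict T)) := by
      have h2 : LinearIndependent ℝ
          (fun o => (⟨F t o, hmem o⟩ : LinearMap.range ((β (v + t • w)).domRestrict T))) := by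
        apply LinearIndependent.of_comp
          (LinearMap.range ((β (v + t • w)).domRestrict T)).subtype
        exact ht
      have h3 := h2.fintype_card_le_finrank
      simpa using h3
    have h2 := hv (v + t • w)
    omega
  have hrn := LinearMap.finrank_range_add_finrank_ker ((β v).domRestrict T)
  rw [LinearMap.ker_domRestrict] at hrn
  have h1 : Module.finrank ℝ (Submodule.comap T.subtype (LinearMap.ker (β v))) ≤
      Module.finrank ℝ (LinearMap.ker β) := by
    have h2 : ∀ x : (Submodule.comap T.subtype (LinearMap.ker (β v))),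
        ((x : T) : V) ∈ LinearMap.ker β := by
      intro x
      rw [LinearMap.mem_ker]
      refine key _ x.1.2 ?_
      exact LinearMap.mem_ker.1 (Submodule.mem_comap.1 x.2)
    refine LinearMap.finrank_le_finrank_of_injective
      (f := (T.subtype ∘ₗ (Submodule.comap T.subtype (LinearMap.ker (β v))).subtype).codRestrict
        (LinearMap.ker β) h2) ?_
    intro x y hxy
    have h3 : ((x : T) : V) = ((y : T) : V) := by
      have h4 := congrArg (LinearMap.ker β).subtype hxy
      exact h4
    exact Subtype.ext (Subtype.ext h3)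
  have h2 : Module.finrank ℝ (LinearMap.range ((β v).domRestrict T)) ≤ Module.finrank ℝ W :=
    Submodule.finrank_le _
  omega

end Pool.Agent.Y489.SM
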