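import Pool.Agent.Y489.SM.Md
import Pool.Agent.Y489.SM.Lb
import Pool.Agent.Y489.SM.Ld
import Pool.Agent.Y489.SM.Ex

/-!
# Curvature tensors given by a second fundamental form
-/

set_option autoImplicit false

namespace Pool.Agent.Y489.SM

open Finset Polynomial Pool.Agent.W666.GB

variable {m : ℕ} {V W : Type} [NormedAddCommGroup V] [InnerProductSpace ℝ V]
  [NormedAddCommGroup W] [InnerProductSpace ℝ W]

/-- the tensor of the Gauss equation of a second fundamental form `β` with values in the normal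
space `W` -/
noncomputable def gauss (β : V →ₗ[ℝ] V →ₗ[ℝ] W) (x y z w : V) : ℝ :=
  inner ℝ (β x z) (β y w) - inner ℝ (β x w) (β y z)

theorem gauss_curv {β : V →ₗ[ℝ] V →ₗ[ℝ] W} (hs : ∀ x y, β x y = β y x) :
    AlgCurv (gauss β) where
  add x x' y z w := by
    simp only [gauss, map_add, LinearMap.add_apply, inner_add_left]
    ring
  smul t x y z w := by
    simp only [gauss, map_smul, LinearMap.smul_apply, inner_smul_left, conj_trivial]
    ring
  anti x y z w := by
    simp only [gauss]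
    rw [real_inner_comm (β x z) (β y w), real_inner_comm (β x w) (β y z)]
    ring
  pair x y z w := by
    simp only [gauss]
    rw [hs z x, hs w y, hs z y, hs w x, real_inner_comm (β y z) (β x w)]
  bianchi x y z w := by
    simp only [gauss]
    rw [hs y x, hs z x, hs z y, real_inner_comm (β z w) (β x y), real_inner_comm (β y w) (β x z),
      real_inner_comm (β x w) (β y z)]
    ring

theorem gauss_sec {β : V →ₗ[ℝ] V →ₗ[ℝ] W} (hs : ∀ x y, β x y = β y x) (x y : V) :
    gauss β x y x y = inner ℝ (β x x) (β y y) - ‖β x y‖ ^ 2 := by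
  rw [gauss, hs y x, real_inner_self_eq_norm_sq]

/-- the matrix of the shape operator in the direction `ξ` -/
noncomputable def shape (e : OrthonormalBasis (Fin m × Bool) ℝ V) (β : V →ₗ[ℝ] V →ₗ[ℝ] W)
    (ξ : W) : Matrix (Fin m × Bool) (Fin m × Bool) ℝ :=
  Matrix.of fun i j => inner ℝ ξ (β (e i) (e j))

/-- the bilinear form in the direction `ξ` -/
noncomputable def bil (β : V →ₗ[ℝ] V →ₗ[ℝ] W) (ξ : W) : V →ₗ[ℝ] V →ₗ[ℝ] ℝ :=
  β.compr₂ (innerₛₗ ℝ ξ)

theorem bil_apply (β : V →ₗ[ℝ] V →ₗ[ℝ] W) (ξ : W) (x y : V) :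
    bil β ξ x y = inner ℝ ξ (β x y) := rfl

theorem shape_eq (e : OrthonormalBasis (Fin m × Bool) ℝ V) (β : V →ₗ[ℝ] V →ₗ[ℝ] W) (ξ : W) :
    shape e β ξ = Matrix.of fun i j => bil β ξ (e i) (e j) := rfl

/-- the determinant of a real matrix shifted by a complex number -/
theorem det_shift (M : Matrix (Fin m × Bool) (Fin m × Bool) ℝ) (z : ℂ) :
    (Matrix.of fun i j => ((M i j : ℝ) : ℂ) + z * (if i = j then 1 else 0)).det =
      Polynomial.eval₂ (algebraMap ℝ ℂ) (-z) M.charpoly := by
  rw [← Polynomial.eval_map, ← Matrix.charpoly_map, Matrix.eval_charpoly]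
  have h1 : (Matrix.scalar (Fin m × Bool)) (-z) - M.map (algebraMap ℝ ℂ) =
      -(Matrix.of fun i j => ((M i j : ℝ) : ℂ) + z * (if i = j then 1 else 0)) := by
    ext i j
    by_cases h : i = j
    · subst h
      simp
      ring
    · simp [h]
  rw [h1, Matrix.det_neg]
  have : (-1 : ℂ) ^ Fintype.card (Fin m × Bool) = 1 := by
    rw [Fintype.card_prod, Fintype.card_fin, Fintype.card_bool, mul_comm, pow_mul]
    simp
  rw [this, one_mul]

theorem det_shift_prod (M : Matrix (Fin m × Bool) (Fin m × Bool) ℝ) (lam : Fin m × Bool → ℝ)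
    (h : M.charpoly = ∏ i, (X - C (lam i))) (s : ℝ) :
    Polynomial.eval₂ (algebraMap ℝ ℂ) (-((s : ℂ) * Complex.I)) M.charpoly = gg lam 1 s := by
  rw [h, Polynomial.eval₂_finsetProd, gg]
  have h1 : ∀ i, Polynomial.eval₂ (algebraMap ℝ ℂ) (-((s : ℂ) * Complex.I)) (X - C (lam i)) =
      (-1) * (((1 * lam i : ℝ) : ℂ) + (s : ℂ) * Complex.I) := by
    intro i
    simp
    ring
  simp only [h1, Finset.prod_mul_distrib, Finset.prod_const, Finset.card_univ]
  have : (-1 : ℂ) ^ Fintype.card (Fin m × Bool) = 1 := by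
    rw [Fintype.card_prod, Fintype.card_fin, Fintype.card_bool, mul_comm, pow_mul]
    simp
  rw [this, one_mul]

/-- even characteristic polynomial -/
theorem even_bound (M : Matrix (Fin m × Bool) (Fin m × Bool) ℝ) (lam : Fin m × Bool → ℝ)
    (h : M.charpoly = ∏ i, (X - C (lam i))) (hev : M.charpoly.comp (-X) = M.charpoly) (s : ℝ) :
    (s ^ 2) ^ m ≤ (-1) ^ m *
      (Polynomial.eval₂ (algebraMap ℝ ℂ) (-((s : ℂ) * Complex.I)) M.charpoly).re := by
  rw [det_shift_prod M lam h]
  refine gg_sign lam (fun s => ?_) s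
  rw [← det_shift_prod M lam h, ← det_shift_prod M lam h]
  conv_lhs => rw [← hev]
  rw [Polynomial.eval₂_comp]
  congr 1
  simp

/-- alternating signs of the even coefficients of the characteristic polynomial -/
theorem sigma_bound (M : Matrix (Fin m × Bool) (Fin m × Bool) ℝ)
    (hσ : ∀ k ≤ m, 0 ≤ (-1) ^ k * M.charpoly.coeff (2 * (m - k))) (s : ℝ) :
    (s ^ 2) ^ m ≤ (-1) ^ m *
      (Polynomial.eval₂ (algebraMap ℝ ℂ) (-((s : ℂ) * Complex.I)) M.charpoly).re := by
  have hdeg : M.charpoly.natDegree = 2 * m := by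
    rw [Matrix.charpoly_natDegree_eq_dim, Fintype.card_prod, Fintype.card_fin, Fintype.card_bool,
      mul_comm]
  rw [Polynomial.eval₂_eq_sum_range, hdeg, Complex.re_sum, Finset.mul_sum]
  have hterm : ∀ j, (((algebraMap ℝ ℂ) (M.charpoly.coeff (2 * j)) *
      (-((s : ℂ) * Complex.I)) ^ (2 * j)).re) = M.charpoly.coeff (2 * j) * ((-1) ^ j *
        (s ^ 2) ^ j) := by
    intro j
    have h1 : (-((s : ℂ) * Complex.I)) ^ (2 * j) = (((-1) ^ j * (s ^ 2) ^ j : ℝ) : ℂ) := by
      rw [pow_mul]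
      have : (-((s : ℂ) * Complex.I)) ^ 2 = -(s : ℂ) ^ 2 := by
        rw [neg_sq, mul_pow, Complex.I_sq]
        ring
      rw [this, neg_pow]
      push_cast
      ring
    rw [h1, Complex.coe_algebraMap, ← Complex.ofReal_mul, Complex.ofReal_re]
  have hodd : ∀ j, (((algebraMap ℝ ℂ) (M.charpoly.coeff (2 * j + 1)) *
      (-((s : ℂ) * Complex.I)) ^ (2 * j + 1)).re) = 0 := by
    intro j
    have h1 : (-((s : ℂ) * Complex.I)) ^ (2 * j + 1) =
        (((-1) ^ j * (s ^ 2) ^ j : ℝ) : ℂ) * (-((s : ℂ) * Complex.I)) := by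
      rw [pow_succ, pow_mul]
      have : (-((s : ℂ) * Complex.I)) ^ 2 = -(s : ℂ) ^ 2 := by
        rw [neg_sq, mul_pow, Complex.I_sq]
        ring
      rw [this, neg_pow]
      push_cast
      ring
    rw [h1, Complex.coe_algebraMap, ← mul_assoc, ← Complex.ofReal_mul, Complex.re_ofReal_mul]
    simp
  have hlast : (s ^ 2) ^ m = (-1) ^ m * (((algebraMap ℝ ℂ) (M.charpoly.coeff (2 * m)) *
      (-((s : ℂ) * Complex.I)) ^ (2 * m)).re) := by
    rw [hterm]
    have h1 : M.charpoly.coeff (2 * m) = 1 := by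
      rw [← hdeg]
      exact M.charpoly_monic.coeff_natDegree
    rw [h1, one_mul, ← mul_assoc, ← mul_pow]
    simp
  rw [hlast]
  refine Finset.single_le_sum (f := fun l => (-1 : ℝ) ^ m *
    (((algebraMap ℝ ℂ) (M.charpoly.coeff l) * (-((s : ℂ) * Complex.I)) ^ l).re)) ?_
    (Finset.mem_range.2 (Nat.lt_succ_self _))
  intro l hl
  rcases Nat.even_or_odd' l with ⟨j, h | h⟩
  · subst h
    have hj : j ≤ m := by
      have := Finset.mem_range.1 hl
      omega
    have h2 := hσ (m - j) (Nat.sub_le _ _)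
    rw [Nat.sub_sub_self hj] at h2
    rw [hterm]
    have h3 : (-1 : ℝ) ^ m * (M.charpoly.coeff (2 * j) * ((-1) ^ j * (s ^ 2) ^ j)) =
        ((-1) ^ (m - j) * M.charpoly.coeff (2 * j)) * (s ^ 2) ^ j := by
      have h4 : (-1 : ℝ) ^ m * (-1) ^ j = (-1) ^ (m - j) := by
        have h5 : m = (m - j) + j := by omega
        conv_lhs => rw [h5]
        rw [pow_add, mul_assoc, ← mul_pow]
        simp
      rw [← h4]
      ring
    rw [h3]
    exact mul_nonneg h2 (by positivity)
  · subst h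
    rw [hodd, mul_zero]

/-- **From the determinants to the integrand.** -/
theorem gbc_bound [FiniteDimensional ℝ W] (e : OrthonormalBasis (Fin m × Bool) ℝ V)
    (β : V →ₗ[ℝ] V →ₗ[ℝ] W) {c : ℝ} (hc : 0 ≤ c) (s h : ℝ)
    (H : ∀ (ξ : W) (t : ℝ), h * (t ^ 2) ^ m ≤ s *
      (Polynomial.eval₂ (algebraMap ℝ ℂ) (-(((t * √c : ℝ) : ℂ) * Complex.I))
        (shape e β ξ).charpoly).re) :
    (2 * m).factorial / ((4 * Real.pi) ^ m * m.factorial) * h ≤
      s * gbc e (shift c (gauss β)) := by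
  have hπ := Real.pi_pos
  set f := stdOrthonormalBasis ℝ W with hf
  set B : Option (Fin (Module.finrank ℝ W)) → Fin m × Bool → Fin m × Bool → ℝ :=
    fun k i j => k.elim (if i = j then 1 else 0) fun α => inner ℝ (f α) (β (e i) (e j)) with hB
  set w : Option (Fin (Module.finrank ℝ W)) → ℝ := fun k => k.elim (-c) fun _ => 1 with hw
  set ω : Option (Fin (Module.finrank ℝ W)) → ℂ :=
    fun k => k.elim (((√c : ℝ) : ℂ) * Complex.I) fun _ => 1 with hω
  have hwω : ∀ k, ω k ^ 2 = (w k : ℂ) := by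
    intro k
    cases k with
    | none =>
      simp only [hω, hw, Option.elim]
      rw [mul_pow, Complex.I_sq, ← Complex.ofReal_pow, Real.sq_sqrt hc]
      push_cast
      ring
    | some α => simp [hω, hw]
  have h1 := Yf_bound ω w hwω B s h fun ζ => by
    have h2 := H (∑ α, ζ (some α) • f α) (ζ none)
    rw [← det_shift] at h2
    refine h2.trans (le_of_eq ?_)
    congr 3
    ext i j
    simp only [Matrix.of_apply, Fintype.sum_option, hω, hB, Option.elim, shape, sum_inner,
      inner_smul_left, conj_trivial, mul_one]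
    split_ifs <;> push_cast <;> ring
  have h2 : ∀ i j k l, shift c (gauss β) (e i) (e j) (e k) (e l) =
      (∑ q, w q * (B q i k * B q j l)) - ∑ q, w q * (B q i l * B q j k) := by
    intro i j k l
    have h3 : ∀ u v : W, inner ℝ u v = ∑ α, inner ℝ (f α) u * inner ℝ (f α) v := by
      intro u v
      rw [← f.sum_inner_mul_inner u v]
      refine Finset.sum_congr rfl fun α _ => ?_
      rw [real_inner_comm u (f α)]
    simp only [shift, gauss, Fintype.sum_option, hw, hB, Option.elim, one_mul, inner_e]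
    rw [h3 (β (e i) (e k)), h3 (β (e i) (e l))]
    ring
  have h3 := lift_sum (B := Fin m) (fun a b c' d => ∑ q, w q * (B q a b * B q c' d))
    (fun i j k l => shift c (gauss β) (e i) (e j) (e k) (e l)) h2
  rw [Fintype.card_fin] at h3
  have h4 : gbc e (shift c (gauss β)) = 1 / ((4 * Real.pi) ^ m * m.factorial) *
      Yf (fun a b c' d => ∑ q, w q * (B q a b * B q c' d)) := by
    rw [gbc]
    change 1 / ((8 * Real.pi) ^ m * m.factorial) * (∑ σ : Equiv.Perm (Fin m × Bool),
      ∑ τ : Equiv.Perm (Fin m × Bool), sn σ * sn τ * _) = _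
    rw [h3]
    have h8 : (8 * Real.pi) ^ m = 2 ^ m * (4 * Real.pi) ^ m := by
      rw [← mul_pow]
      congr 1
      ring
    rw [h8]
    field_simp
  rw [h4]
  have h5 : (0 : ℝ) < 1 / ((4 * Real.pi) ^ m * m.factorial) := by positivity
  calc (2 * m).factorial / ((4 * Real.pi) ^ m * m.factorial) * h
      = 1 / ((4 * Real.pi) ^ m * m.factorial) * ((2 * m).factorial * h) := by ring
    _ ≤ 1 / ((4 * Real.pi) ^ m * m.factorial) *
        (s * Yf (fun a b c' d => ∑ q, w q * (B q a b * B q c' d))) :=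
        mul_le_mul_of_nonneg_left h1 h5.le
    _ = _ := by ring

end Pool.Agent.Y489.SM
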