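import Pool.Agent.Y489.SM.Fa
import Pool.Agent.W669.HD.FiveFin

/-!
# The cases
-/

set_option autoImplicit false

namespace Pool.Agent.Y489.SM

open Finset Pool.Agent.W666.GB Pool.Agent.W669.HD

variable {m : ℕ} {V W : Type} [NormedAddCommGroup V] [InnerProductSpace ℝ V]
  [NormedAddCommGroup W] [InnerProductSpace ℝ W]

theorem shift_zero (E : V → V → V → V → ℝ) : shift 0 E = E := by
  funext x y z w
  simp [shift]

theorem opNonneg_zero : OpNonneg (negT (addT (fun _ _ _ _ : V => (0 : ℝ))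
    fun x y z w => 0 * unitT x y z w)) := by
  intro n x y
  simp [negT, addT]

theorem zero_curv : AlgCurv (fun _ _ _ _ : V => (0 : ℝ)) :=
  ⟨fun _ _ _ _ _ => by simp, fun _ _ _ _ _ => by simp, fun _ _ _ _ => by simp,
    fun _ _ _ _ => by simp, fun _ _ _ _ => by simp⟩

/-- dimensions two and four -/
theorem small_dim {k : ℕ} (hk : k ≤ 2) (e : OrthonormalBasis (Fin k × Bool) ℝ V)
    {E : V → V → V → V → ℝ} (hE : AlgCurv E) (hsec : ∀ x y, E x y x y ≤ 0) :
    0 ≤ (-1) ^ k * gbc e E := by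
  have h1 : PiecesD 5 2 0 E := by
    refine ⟨fun i => if i = 0 then E else fun _ _ _ _ => 0, fun _ => ⊤, fun _ _ _ _ => 0, ?_,
      zero_curv, opNonneg_zero, ?_⟩
    · intro i
      by_cases hi : i = 0
      · simp only [hi, if_true]
        refine ⟨hE, ?_, Or.inl ⟨?_, hsec⟩⟩
        · intro x hx y z w
          rw [Submodule.top_orthogonal_eq_bot, Submodule.mem_bot] at hx
          rw [hx]
          have := hE.smul 0 0 y z w
          simpa using this
        · rw [finrank_top, Module.finrank_eq_card_basis e.toBasis]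
          simp
          omega
      · simp only [hi, if_false]
        refine ⟨zero_curv, fun _ _ _ _ _ => rfl, Or.inl ⟨?_, fun _ _ => le_rfl⟩⟩
        rw [finrank_top, Module.finrank_eq_card_basis e.toBasis]
        simp
        omega
    · intro x y z w
      simp
  exact (Pool.Agent.W669.HD.roundGB_nonneg le_rfl).trans (five_two e le_rfl h1)

theorem gauss_lives [FiniteDimensional ℝ V] {β : V →ₗ[ℝ] V →ₗ[ℝ] W} :
    LivesOn (LinearMap.ker β)ᗮ (gauss β) := by
  intro x hx y z w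
  rw [Submodule.orthogonal_orthogonal, LinearMap.mem_ker] at hx
  simp [gauss, hx]

theorem ker_perp [FiniteDimensional ℝ V] [FiniteDimensional ℝ W] {β : V →ₗ[ℝ] V →ₗ[ℝ] W}
    (hs : ∀ x y, β x y = β y x) (hK : ∀ x y, gauss β x y x y ≤ 0) :
    Module.finrank ℝ ((LinearMap.ker β)ᗮ : Submodule ℝ V) ≤ 2 * Module.finrank ℝ W := by
  have h1 := nullity β hs fun x y => by
    rw [← gauss_sec hs]
    exact hK x y
  have h2 := Submodule.finrank_add_finrank_orthogonal (LinearMap.ker β)
  omega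

/-- **General ambient spaces, codimension at most two.** -/
theorem case_pieces {W' : Type} [NormedAddCommGroup W'] [InnerProductSpace ℝ W']
    [FiniteDimensional ℝ W] [FiniteDimensional ℝ W']
    (e : OrthonormalBasis (Fin m × Bool) ℝ V) (β : V →ₗ[ℝ] V →ₗ[ℝ] W)
    (β' : V →ₗ[ℝ] V →ₗ[ℝ] W') (hd : Module.finrank ℝ W ≤ 2) (hd' : Module.finrank ℝ W' ≤ 2)
    (hs : ∀ x y, β x y = β y x) (hs' : ∀ x y, β' x y = β' y x)
    (hK : ∀ x y, gauss β x y x y ≤ 0) (hK' : ∀ x y, gauss β' x y x y ≤ 0)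
    {R R₀ : V → V → V → V → ℝ} {δ : ℝ} (hδ : 0 ≤ δ) (hR₀ : AlgCurv R₀)
    (hop : OpNonneg (negT (addT R₀ fun x y z w => δ * unitT x y z w)))
    (hR : ∀ x y z w, R x y z w = gauss β x y z w + gauss β' x y z w + R₀ x y z w) :
    roundGB m δ ≤ (-1) ^ m * gbc e R := by
  have hfin : FiniteDimensional ℝ V := e.toBasis.finiteDimensional_of_finite
  refine five_two e hδ ⟨![gauss β, gauss β'], ![(LinearMap.ker β)ᗮ, (LinearMap.ker β')ᗮ], R₀,
    ?_, hR₀, hop, ?_⟩
  · intro i
    fin_cases i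
    · refine ⟨gauss_curv hs, gauss_lives, Or.inl ⟨?_, hK⟩⟩
      exact (ker_perp hs hK).trans (by omega)
    · refine ⟨gauss_curv hs', gauss_lives, Or.inl ⟨?_, hK'⟩⟩
      exact (ker_perp hs' hK').trans (by omega)
  · intro x y z w
    rw [hR, Fin.sum_univ_two]
    rfl

/-- the index of the forms in the normal directions -/
theorem index_bound [FiniteDimensional ℝ V] [FiniteDimensional ℝ W] {β : V →ₗ[ℝ] V →ₗ[ℝ] W}
    (hs : ∀ x y, β x y = β y x) (hK : ∀ x y, gauss β x y x y ≤ 0) (P : W → Prop)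
    (hP : ¬ P 0) (U : Submodule ℝ V) (hU : ∀ x ∈ U, x ≠ 0 → P (β x x)) :
    Module.finrank ℝ U ≤ Module.finrank ℝ W := by
  by_contra hcon
  push Not at hcon
  obtain ⟨x, hx0, hx⟩ := otsuki (β.domRestrict₁₂ U U)
    (fun x y => by simpa [LinearMap.domRestrict₁₂_apply] using hs x y)
    (fun x y => by
      have := hK x y
      rw [gauss_sec hs] at this
      simpa [LinearMap.domRestrict₁₂_apply] using this) ⊤
    (fun x y => Submodule.mem_top) (by rwa [finrank_top])
  have h1 := hU x x.2 fun h => hx0 (Subtype.ext h)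
  have h2 : β x x = 0 := by simpa [LinearMap.domRestrict₁₂_apply] using hx
  rw [h2] at h1
  exact hP h1

/-- the bound on the determinants from the index -/
theorem saddle_bound [FiniteDimensional ℝ W] (e : OrthonormalBasis (Fin m × Bool) ℝ V)
    (β : V →ₗ[ℝ] V →ₗ[ℝ] W) (hs : ∀ x y, β x y = β y x) {k : ℕ} (hk : k ≤ m)
    (hp : ∀ (ξ : W) (U : Submodule ℝ V), (∀ x ∈ U, x ≠ 0 → 0 < inner ℝ ξ (β x x)) →
      Module.finrank ℝ U ≤ k) :
    0 ≤ (-1) ^ m * gbc e (gauss β) ∧ (k < m → gbc e (gauss β) = 0) := by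
  have hdet : ∀ ξ : W, 0 ≤ (-1) ^ m * (shape e β ξ).det ∧ (k < m → (shape e β ξ).det = 0) := by
    intro ξ
    rw [shape_eq]
    refine det_sign e (bil β ξ) (fun x y => by rw [bil_apply, bil_apply, hs]) hk ?_ ?_
    · intro U hU
      exact hp ξ U hU
    · intro U hU
      refine hp (-ξ) U fun x hx hx0 => ?_
      have := hU x hx hx0
      rw [bil_apply] at this
      rw [inner_neg_left]
      linarith
  have hev : ∀ (ξ : W) (t : ℝ), (Polynomial.eval₂ (algebraMap ℝ ℂ)
      (-(((t * √0 : ℝ) : ℂ) * Complex.I)) (shape e β ξ).charpoly).re = (shape e β ξ).det := by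
    intro ξ t
    rw [← det_shift]
    simp only [Real.sqrt_zero, mul_zero, Complex.ofReal_zero, zero_mul, add_zero]
    have h1 : (Matrix.of fun i j => ((shape e β ξ i j : ℝ) : ℂ)) =
        (shape e β ξ).map (algebraMap ℝ ℂ) := rfl
    rw [h1]
    have h2 := RingHom.map_det (algebraMap ℝ ℂ) (shape e β ξ)
    rw [RingHom.mapMatrix_apply] at h2
    rw [← h2]
    simp
  have h1 := gbc_bound e β le_rfl ((-1) ^ m) 0 fun ξ t => by
    rw [hev, zero_mul]
    exact (hdet ξ).1
  rw [mul_zero, shift_zero] at h1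
  refine ⟨h1, fun hkm => ?_⟩
  have h2 := gbc_bound e β le_rfl 1 0 fun ξ t => by
    rw [hev, zero_mul, (hdet ξ).2 hkm, mul_zero]
  have h3 := gbc_bound e β le_rfl (-1) 0 fun ξ t => by
    rw [hev, zero_mul, (hdet ξ).2 hkm, mul_zero]
  rw [mul_zero, shift_zero] at h2 h3
  linarith

/-- **Flat ambient spaces, codimension at most half the dimension.** -/
theorem case_flat [FiniteDimensional ℝ W] (e : OrthonormalBasis (Fin m × Bool) ℝ V)
    (β : V →ₗ[ℝ] V →ₗ[ℝ] W) (hs : ∀ x y, β x y = β y x)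
    (hK : ∀ x y, gauss β x y x y ≤ 0) (hd : Module.finrank ℝ W ≤ m) :
    0 ≤ (-1) ^ m * gbc e (gauss β) ∧ (Module.finrank ℝ W < m → gbc e (gauss β) = 0) := by
  have hfin : FiniteDimensional ℝ V := e.toBasis.finiteDimensional_of_finite
  exact saddle_bound e β hs hd fun ξ U hU =>
    index_bound hs hK (fun w => 0 < inner ℝ ξ w) (by simp) U hU

/-- the tensor of a pulled back second fundamental form -/
theorem pull_gauss {V' : Type} [NormedAddCommGroup V'] [InnerProductSpace ℝ V']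
    (β : V →ₗ[ℝ] V →ₗ[ℝ] W) (L : V' →ₗ[ℝ] V) :
    pull (gauss β) L = gauss (β.compl₁₂ L L) := by
  funext x y z w
  simp [pull, gauss]

/-- **Ambient spaces of constant curvature, codimension at most three.** -/
theorem case_three [FiniteDimensional ℝ W] (e : OrthonormalBasis (Fin m × Bool) ℝ V)
    (β : V →ₗ[ℝ] V →ₗ[ℝ] W) (hs : ∀ x y, β x y = β y x)
    (hK : ∀ x y, gauss β x y x y ≤ 0) (hd : Module.finrank ℝ W ≤ 3) {c : ℝ} (hc : 0 ≤ c) :
    roundGB m c ≤ (-1) ^ m * gbc e (shift c (gauss β)) := by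
  refine shift_bound e (gauss_curv hs) (fun k L _ => ?_) hc
  rw [pull_gauss]
  have hs' : ∀ x y, (β.compl₁₂ L L) x y = (β.compl₁₂ L L) y x := fun x y => by
    simp only [LinearMap.compl₁₂_apply]
    exact hs _ _
  have hK' : ∀ x y, gauss (β.compl₁₂ L L) x y x y ≤ 0 := fun x y => by
    rw [← pull_gauss]
    exact hK _ _
  by_cases hk : k ≤ 2
  · exact small_dim hk (sb k) (gauss_curv hs') hK'
  · exact (case_flat (sb k) _ hs' hK' (by omega)).1

/-- a tensor living on a subspace of small dimension -/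
theorem gbc_zero {k : ℕ} {V' : Type} [NormedAddCommGroup V'] [InnerProductSpace ℝ V']
    [FiniteDimensional ℝ V] (e : OrthonormalBasis (Fin k × Bool) ℝ V')
    {E : V → V → V → V → ℝ} (hE : AlgCurv E) (U : Submodule ℝ V) (hU : LivesOn U E)
    (hd : Module.finrank ℝ U < 2 * k) (L : V' →ₗ[ℝ] V) : gbc e (pull E L) = 0 := by
  have hfin : FiniteDimensional ℝ V' := e.toBasis.finiteDimensional_of_finite
  have hcard : Module.finrank ℝ V' = 2 * k := by
    rw [Module.finrank_eq_card_basis e.toBasis]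
    simp [mul_comm]
  -- a unit vector in the kernel of the projection
  set P : V' →ₗ[ℝ] U := (U.orthogonalProjectionOnto : V →ₗ[ℝ] U) ∘ₗ L with hP
  have hker : ∃ x : V', x ≠ 0 ∧ P x = 0 := by
    by_contra hcon
    push Not at hcon
    have hinj : Function.Injective P := by
      rw [← LinearMap.ker_eq_bot, LinearMap.ker_eq_bot']
      intro x hx
      by_contra hne
      exact hcon x hne hx
    have := LinearMap.finrank_le_finrank_of_injective hinj
    omega
  obtain ⟨x, hx0, hx⟩ := hker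
  have hxn : ‖x‖ ≠ 0 := norm_ne_zero_iff.2 hx0
  have hLx : ∀ t : ℝ, L (t • x) ∈ Uᗮ := by
    intro t
    rw [map_smul]
    refine Submodule.smul_mem _ _ ?_
    have h1 : U.orthogonalProjectionOnto (L x) = 0 := hx
    rwa [Submodule.orthogonalProjectionOnto_eq_zero_iff] at h1
  have hkpos : 0 < k := by omega
  set i₀ : Fin k × Bool := (⟨0, hkpos⟩, false) with hi₀
  obtain ⟨e', he'⟩ : ∃ e' : OrthonormalBasis (Fin k × Bool) ℝ V', e' i₀ = ‖x‖⁻¹ • x := by
    have horth : Orthonormal ℝ (Set.domRestrict {i₀} fun _ : Fin k × Bool => ‖x‖⁻¹ • x) := by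
      constructor
      · intro _
        rw [Set.domRestrict_apply, norm_smul, norm_inv, norm_norm, inv_mul_cancel₀ hxn]
      · intro a b hab
        exact absurd (Subsingleton.elim a b) hab
    obtain ⟨b, hb⟩ := horth.exists_orthonormalBasis_extension_of_card_eq (by
      rw [hcard]
      simp [mul_comm])
    exact ⟨b, hb i₀ (Set.mem_singleton _)⟩
  rw [Pool.Agent.W688.HD.bas k V' e e' _ (pull_curv hE L)]
  have hz : ∀ y z w, pull E L (e' i₀) y z w = 0 := by
    intro y z w
    rw [he']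
    exact hU _ (hLx _) _ _ _
  have hz' : ∀ y z w, pull E L y (e' i₀) z w = 0 := by
    intro y z w
    rw [(pull_curv hE L).anti, hz, neg_zero]
  unfold gbc
  have hsum : ∑ σ : Equiv.Perm (Fin k × Bool), ∑ τ : Equiv.Perm (Fin k × Bool),
      ((Equiv.Perm.sign σ : ℤ) : ℝ) * ((Equiv.Perm.sign τ : ℤ) : ℝ) *
        ∏ b : Fin k, pull E L (e' (σ (b, false))) (e' (σ (b, true))) (e' (τ (b, false)))
          (e' (τ (b, true))) = 0 := by
    refine Finset.sum_eq_zero fun σ _ => Finset.sum_eq_zero fun τ _ => ?_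
    obtain ⟨⟨b, β⟩, hb⟩ := σ.surjective i₀
    have : ∏ b : Fin k, pull E L (e' (σ (b, false))) (e' (σ (b, true))) (e' (τ (b, false)))
          (e' (τ (b, true))) = 0 := by
      refine Finset.prod_eq_zero (Finset.mem_univ b) ?_
      cases β
      · rw [hb, hz]
      · rw [hb, hz']
    rw [this, mul_zero]
  rw [hsum, mul_zero]

/-- **Sectional curvatures at most `-c`, and curvature `-c` off a subspace of dimension five.** -/
theorem case_five (e : OrthonormalBasis (Fin m × Bool) ℝ V) {E : V → V → V → V → ℝ}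
    (hE : AlgCurv E) (hK : ∀ x y, E x y x y ≤ 0) (U : Submodule ℝ V) (hU : LivesOn U E)
    (hd : Module.finrank ℝ U ≤ 5) {c : ℝ} (hc : 0 ≤ c) :
    roundGB m c ≤ (-1) ^ m * gbc e (shift c E) := by
  have hfin : FiniteDimensional ℝ V := e.toBasis.finiteDimensional_of_finite
  refine shift_bound e hE (fun k L _ => ?_) hc
  by_cases hk : k ≤ 2
  · exact small_dim hk (sb k) (pull_curv hE L) fun x y => hK _ _
  · rw [gbc_zero (sb k) hE U hU (by omega) L, mul_zero]

theorem round_eq (m : ℕ) (c : ℝ) :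
    roundGB m c = (2 * m).factorial / ((4 * Real.pi) ^ m * m.factorial) * c ^ m := rfl

/-- **Signs of the even elementary symmetric functions of the principal curvatures.** -/
theorem case_sigma [FiniteDimensional ℝ W] (e : OrthonormalBasis (Fin m × Bool) ℝ V)
    (β : V →ₗ[ℝ] V →ₗ[ℝ] W)
    (hσ : ∀ ξ : W, ∀ k ≤ m, 0 ≤ (-1) ^ k *
      (Matrix.of fun i j => inner ℝ ξ (β (e i) (e j))).charpoly.coeff (2 * (m - k)))
    {c : ℝ} (hc : 0 ≤ c) :
    roundGB m c ≤ (-1) ^ m * gbc e (shift c (gauss β)) := by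
  rw [round_eq]
  refine gbc_bound e β hc ((-1) ^ m) (c ^ m) fun ξ t => ?_
  have h1 := sigma_bound (shape e β ξ) (hσ ξ) (t * √c)
  rw [mul_pow, Real.sq_sqrt hc, mul_pow, mul_comm] at h1
  exact h1

/-- **Austere submanifolds.** -/
theorem case_austere [FiniteDimensional ℝ W] (e : OrthonormalBasis (Fin m × Bool) ℝ V)
    (β : V →ₗ[ℝ] V →ₗ[ℝ] W) (hs : ∀ x y, β x y = β y x)
    (hev : ∀ ξ : W, (Matrix.of fun i j => inner ℝ ξ (β (e i) (e j))).charpoly.comp
      (-Polynomial.X) = (Matrix.of fun i j => inner ℝ ξ (β (e i) (e j))).charpoly)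
    {c : ℝ} (hc : 0 ≤ c) :
    roundGB m c ≤ (-1) ^ m * gbc e (shift c (gauss β)) := by
  rw [round_eq]
  refine gbc_bound e β hc ((-1) ^ m) (c ^ m) fun ξ t => ?_
  obtain ⟨lam, v, -, -, -, hlam⟩ := exists_diag e (bil β ξ)
    (fun x y => by rw [bil_apply, bil_apply, hs])
  have h1 := even_bound (shape e β ξ) lam hlam (hev ξ) (t * √c)
  rw [mul_pow, Real.sq_sqrt hc, mul_pow, mul_comm] at h1
  exact h1

end Pool.Agent.Y489.SM
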