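import Pool.Agent.Y489.SM.Fb

/-!
# The criterion in terms of the symmetric functions of the principal curvatures
-/

set_option autoImplicit false

namespace Pool.Agent.Y489.SM

open Finset Polynomial Pool.Agent.W666.GB

section lift

variable {k : ℕ} {V : Type} [NormedAddCommGroup V] [InnerProductSpace ℝ V]

theorem gbc_lift (b : OrthonormalBasis (Fin k × Bool) ℝ V) (R : V → V → V → V → ℝ)
    (C : Fin k × Bool → Fin k × Bool → Fin k × Bool → Fin k × Bool → ℝ)
    (h : ∀ i j p q, -R (b i) (b j) (b p) (b q) = C i p j q - C i q j p) :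
    (-1) ^ k * gbc b R = 1 / ((4 * Real.pi) ^ k * k.factorial) * Yf C := by
  have hπ := Real.pi_pos
  have h1 := lift_sum (B := Fin k) C (fun i j p q => -R (b i) (b j) (b p) (b q)) h
  rw [Fintype.card_fin] at h1
  have h0 : Yf C = 1 / 2 ^ k * (2 ^ k * Yf C) := by
    have : (2 : ℝ) ^ k ≠ 0 := by positivity
    field_simp
  rw [h0, ← h1, gbc]
  have h2 : ∀ σ τ : Equiv.Perm (Fin k × Bool), ∏ b' : Fin k,
      -R (b (σ (b', false))) (b (σ (b', true))) (b (τ (b', false))) (b (τ (b', true))) =
      (-1) ^ k * ∏ b' : Fin k,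
        R (b (σ (b', false))) (b (σ (b', true))) (b (τ (b', false))) (b (τ (b', true))) := by
    intro σ τ
    rw [Finset.prod_neg, Finset.card_univ, Fintype.card_fin]
  simp only [h2, sn, Finset.mul_sum]
  have h8 : (8 * Real.pi) ^ k = 2 ^ k * (4 * Real.pi) ^ k := by
    rw [← mul_pow]
    congr 1
    ring
  rw [h8]
  refine Finset.sum_congr rfl fun σ _ => Finset.sum_congr rfl fun τ _ => ?_
  field_simp

end lift

section expand

variable {m : ℕ} {V : Type} [NormedAddCommGroup V] [InnerProductSpace ℝ V]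

/-- transport of the sum along an equivalence of the blocks -/
theorem sum_Yf_reindex {T B J : Type} [Fintype T] [DecidableEq T] [Fintype B] [DecidableEq B]
    [Fintype J] (f : T ≃ B) (C : J → J → J → J → ℝ) :
    ∑ i : T × Bool → J, Yf (pb C i) = ∑ i : B × Bool → J, Yf (pb C i) := by
  classical
  set g : T × Bool ≃ B × Bool := f.prodCongr (Equiv.refl Bool) with hg
  rw [← Equiv.sum_comp (Equiv.arrowCongr g.symm (Equiv.refl J))]
  refine Finset.sum_congr rfl fun i _ => ?_
  have h1 : pb C ((Equiv.arrowCongr g.symm (Equiv.refl J)) i) =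
      pb (pb C i) (fun a : T × Bool => (f a.1, a.2)) := by
    funext a b c d
    rfl
  rw [h1, Yf_reindex]

theorem shift_bound' (e : OrthonormalBasis (Fin m × Bool) ℝ V) (E : V → V → V → V → ℝ)
    (C : Fin m × Bool → Fin m × Bool → Fin m × Bool → Fin m × Bool → ℝ)
    (hC : ∀ i j p q, -E (e i) (e j) (e p) (e q) = C i p j q - C i q j p) {c : ℝ} (hc : 0 ≤ c)
    (hk : ∀ k : ℕ, 0 < k → k ≤ m → (c = 0 → k = m) →
      0 ≤ ∑ i : Fin k × Bool → Fin m × Bool, Yf (pb C i)) :
    roundGB m c ≤ (-1) ^ m * gbc e (shift c E) := by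
  have hπ := Real.pi_pos
  rw [gbc_lift e (shift c E) (fun a b p q => c * (if a = b then 1 else 0) *
    (if p = q then 1 else 0) + C a b p q) (fun i j p q => by
      have := hC i j p q
      simp only [shift, inner_e]
      linarith), Yf_expand]
  have hT : ∀ T : Finset (Fin m), T.Nonempty →
      0 ≤ c ^ (Fintype.card (Fin m) - T.card) *
        ∑ σ : Equiv.Perm (Fin m × Bool), yf (pb C (σ ∘ iT T)) := by
    intro T hTne
    have hcard : T.card ≤ m := by
      have := Finset.card_le_univ T
      simpa using this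
    by_cases hc0 : c = 0 ∧ T.card ≠ m
    · have h1 : Fintype.card (Fin m) - T.card ≠ 0 := by
        rw [Fintype.card_fin]
        omega
      rw [hc0.1, zero_pow h1, zero_mul]
    have hcm : c = 0 → T.card = m := by
      intro h
      by_contra hne
      exact hc0 ⟨h, hne⟩
    refine mul_nonneg (pow_nonneg hc _) ?_
    have h1 := sum_perm_eq (P := T × Bool) (J := Fin m × Bool) (fun i => yf (pb C i))
      (fun i hi => yf_noninj C i hi) (iT T) (iT_injective T)
    have h2 := sum_Yf (T := T) (J := Fin m × Bool) C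
    have h3 : 0 ≤ ∑ i : T × Bool → Fin m × Bool, Yf (pb C i) := by
      have hk1 := hk T.card hTne.card_pos hcard hcm
      rwa [← sum_Yf_reindex (T := T) (Fintype.equivFinOfCardEq (by simp)) C] at hk1
    have h4 : 0 ≤ ∑ i : T × Bool → Fin m × Bool, yf (pb C i) := by
      rw [h2] at h3
      have : (0 : ℝ) < (Fintype.card (T × Bool)).factorial := by positivity
      exact nonneg_of_mul_nonneg_right h3 this
    have h5 : (0 : ℝ) < ((Fintype.card (Fin m × Bool)).descFactorial (Fintype.card (T × Bool)) :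
        ℝ) := by
      have h6 : Fintype.card (T × Bool) ≤ Fintype.card (Fin m × Bool) :=
        Fintype.card_le_of_injective _ (iT_injective T)
      have h7 : 0 < (Fintype.card (Fin m × Bool)).descFactorial (Fintype.card (T × Bool)) := by
        rw [Nat.pos_iff_ne_zero, Ne, Nat.descFactorial_eq_zero_iff_lt]
        omega
      exact_mod_cast h7
    have h6 : 0 ≤ ((Fintype.card (Fin m × Bool)).descFactorial (Fintype.card (T × Bool)) : ℝ) *
        ∑ σ : Equiv.Perm (Fin m × Bool), yf (pb C (σ ∘ iT T)) := by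
      rw [h1]
      positivity
    exact nonneg_of_mul_nonneg_right h6 h5
  have hempty : c ^ (Fintype.card (Fin m) - (∅ : Finset (Fin m)).card) *
      ∑ σ : Equiv.Perm (Fin m × Bool), yf (pb C (σ ∘ iT (∅ : Finset (Fin m)))) =
      (2 * m).factorial * c ^ m := by
    have h1 : ∀ σ : Equiv.Perm (Fin m × Bool),
        yf (pb C (σ ∘ iT (∅ : Finset (Fin m)))) = 1 := by
      intro σ
      have hem : IsEmpty ((∅ : Finset (Fin m)) × Bool) :=
        ⟨fun a => absurd a.1.2 (Finset.notMem_empty _)⟩
      have hem' : IsEmpty ((∅ : Finset (Fin m))) := ⟨fun a => absurd a.2 (Finset.notMem_empty _)⟩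
      have h2 : ∀ ρ : Equiv.Perm ((∅ : Finset (Fin m)) × Bool), sn ρ = 1 := by
        intro ρ
        rw [Subsingleton.elim ρ 1, sn_one]
      rw [yf]
      have hu : Unique (Equiv.Perm ((∅ : Finset (Fin m)) × Bool)) := Equiv.permUnique
      rw [Fintype.sum_unique, Fintype.prod_empty, mul_one, h2]
    simp only [h1, Finset.sum_const, Finset.card_univ, Fintype.card_perm, nsmul_eq_mul, mul_one,
      Fintype.card_fin, Finset.card_empty, Nat.sub_zero, Fintype.card_prod, Fintype.card_bool]
    rw [mul_comm m 2]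
    ring
  have hsum : ((2 * m).factorial : ℝ) * c ^ m ≤ ∑ T : Finset (Fin m),
      c ^ (Fintype.card (Fin m) - T.card) *
        ∑ σ : Equiv.Perm (Fin m × Bool), yf (pb C (σ ∘ iT T)) := by
    rw [← hempty]
    refine Finset.single_le_sum (f := fun T : Finset (Fin m) =>
      c ^ (Fintype.card (Fin m) - T.card) *
        ∑ σ : Equiv.Perm (Fin m × Bool), yf (pb C (σ ∘ iT T))) ?_ (Finset.mem_univ ∅)
    intro T _
    rcases T.eq_empty_or_nonempty with h | h
    · subst h
      rw [hempty]
      positivity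
    · exact hT T h
  have h1 : roundGB m c = 1 / ((4 * Real.pi) ^ m * m.factorial) *
      ((2 * m).factorial * c ^ m) := by
    unfold roundGB
    field_simp
  rw [h1]
  exact mul_le_mul_of_nonneg_left hsum (by positivity)

end expand

section level

variable {m k : ℕ} {V W : Type} [NormedAddCommGroup V] [InnerProductSpace ℝ V]
  [NormedAddCommGroup W] [InnerProductSpace ℝ W]

/-- a lift of the negative of the Gauss tensor -/
noncomputable def lf (e : OrthonormalBasis (Fin m × Bool) ℝ V) (β : V →ₗ[ℝ] V →ₗ[ℝ] W)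
    (a b c d : Fin m × Bool) : ℝ :=
  -inner ℝ (β (e a) (e b)) (β (e c) (e d))

theorem lf_lift (e : OrthonormalBasis (Fin m × Bool) ℝ V) (β : V →ₗ[ℝ] V →ₗ[ℝ] W)
    (i j p q : Fin m × Bool) :
    -gauss β (e i) (e j) (e p) (e q) = lf e β i p j q - lf e β i q j p := by
  simp only [gauss, lf]
  ring

/-- the matrix of the shape operator at a family of basis vectors -/
noncomputable def fam {P : Type} (e : OrthonormalBasis (Fin m × Bool) ℝ V)
    (β : V →ₗ[ℝ] V →ₗ[ℝ] W) (ξ : W) (i : P → Fin m × Bool) : Matrix P P ℝ :=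
  Matrix.of fun a b => inner ℝ ξ (β (e (i a)) (e (i b)))

/-- **The level `k`**: from the minors of the shape operators to the tensor. -/
theorem level_pos [FiniteDimensional ℝ W] (e : OrthonormalBasis (Fin m × Bool) ℝ V)
    (β : V →ₗ[ℝ] V →ₗ[ℝ] W)
    (h : ∀ ξ : W, 0 ≤ (-1) ^ k * ∑ i : Fin k × Bool → Fin m × Bool, (fam e β ξ i).det) :
    0 ≤ ∑ i : Fin k × Bool → Fin m × Bool, Yf (pb (lf e β) i) := by
  set f := stdOrthonormalBasis ℝ W with hf
  set B : (Fin k × Bool → Fin m × Bool) → Fin (Module.finrank ℝ W) → Fin k × Bool →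
      Fin k × Bool → ℝ := fun i α a b => inner ℝ (f α) (β (e (i a)) (e (i b))) with hB
  set F : (Fin k × Bool → Fin (Module.finrank ℝ W)) → ℝ := fun γ =>
    (-1) ^ k * ∑ i : Fin k × Bool → Fin m × Bool, FF (fun _ => 1) (B i) γ with hF
  have hsy : Sy F := by
    intro π γ
    simp only [hF]
    congr 1
    exact Finset.sum_congr rfl fun i _ => FF_sy (fun _ => 1) (B i) π γ
  have hpos : ∀ ζ : Fin (Module.finrank ℝ W) → ℝ,
      0 ≤ ∑ γ : Fin k × Bool → Fin (Module.finrank ℝ W), (∏ j, ζ (γ j)) * F γ := by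
    intro ζ
    have h1 : ∑ γ : Fin k × Bool → Fin (Module.finrank ℝ W), (∏ j, ζ (γ j)) * F γ =
        (-1) ^ k * ∑ i : Fin k × Bool → Fin m × Bool,
          ∑ γ : Fin k × Bool → Fin (Module.finrank ℝ W),
            (∏ j, ζ (γ j)) * FF (fun _ => 1) (B i) γ := by
      rw [Finset.sum_comm, Finset.mul_sum]
      refine Finset.sum_congr rfl fun γ _ => ?_
      simp only [hF]
      rw [← Finset.mul_sum]
      ring
    rw [h1]
    simp only [FF_poly]
    have h2 : ∀ i : Fin k × Bool → Fin m × Bool,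
        (Matrix.det (Matrix.of fun a b => ∑ α, (ζ α : ℂ) * 1 * (B i α a b : ℂ))).re =
          (fam e β (∑ α, ζ α • f α) i).det := by
      intro i
      have h3 : (Matrix.of fun a b => ∑ α, (ζ α : ℂ) * 1 * (B i α a b : ℂ)) =
          (fam e β (∑ α, ζ α • f α) i).map (algebraMap ℝ ℂ) := by
        ext a b
        simp only [Matrix.of_apply, Matrix.map_apply, fam, hB, sum_inner, inner_smul_left,
          conj_trivial, mul_one, Complex.coe_algebraMap]
        push_cast
        rfl
      rw [h3]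
      have h4 := RingHom.map_det (algebraMap ℝ ℂ) (fam e β (∑ α, ζ α • f α) i)
      rw [RingHom.mapMatrix_apply] at h4
      rw [← h4]
      simp
    simp only [h2, ← Finset.mul_sum]
    have h3 := h (∑ α, ζ α • f α)
    have h4 : (0 : ℝ) ≤ (Fintype.card (Fin k × Bool)).factorial := Nat.cast_nonneg _
    nlinarith [mul_nonneg h4 h3]
  have h5 := pairs_nonneg k F hsy hpos
  refine h5.trans (le_of_eq ?_)
  simp only [hF]
  rw [← Finset.mul_sum, Finset.sum_comm, Finset.mul_sum]
  refine Finset.sum_congr rfl fun i _ => ?_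
  have h6 : Yf (pb (lf e β) i) = (-1) ^ k *
      Yf (fun a b c d => ∑ α, (fun _ => (1 : ℝ)) α * (B i α a b * B i α c d)) := by
    rw [Yf, Yf, Finset.mul_sum]
    refine Finset.sum_congr rfl fun σ _ => ?_
    rw [Finset.mul_sum]
    refine Finset.sum_congr rfl fun τ _ => ?_
    have h7 : ∀ a b c d : Fin k × Bool, pb (lf e β) i a b c d =
        -∑ α, (fun _ => (1 : ℝ)) α * (B i α a b * B i α c d) := by
      intro a b c d
      simp only [pb, lf, hB, one_mul]
      rw [← f.sum_inner_mul_inner]
      congr 1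
      refine Finset.sum_congr rfl fun α _ => ?_
      rw [real_inner_comm]
    simp only [h7]
    rw [Finset.prod_neg, Finset.card_univ, Fintype.card_fin]
    ring
  rw [h6, Yf_sum]
  congr 1
  refine Finset.sum_congr rfl fun α _ => ?_
  simp [FF]

/-- dimensions two and four -/
theorem level_small (hk : k ≤ 2) (e : OrthonormalBasis (Fin m × Bool) ℝ V)
    (β : V →ₗ[ℝ] V →ₗ[ℝ] W) (hs : ∀ x y, β x y = β y x) (hK : ∀ x y, gauss β x y x y ≤ 0) :
    0 ≤ ∑ i : Fin k × Bool → Fin m × Bool, Yf (pb (lf e β) i) := by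
  have hπ := Real.pi_pos
  refine Finset.sum_nonneg fun i _ => ?_
  set L : EuclideanSpace ℝ (Fin k × Bool) →ₗ[ℝ] V :=
    ((sb k).toBasis.constr ℝ fun a => e (i a)) with hL
  have hLe : ∀ a, L (sb k a) = e (i a) := by
    intro a
    have := (sb k).toBasis.constr_basis ℝ (fun a => e (i a)) a
    rw [OrthonormalBasis.coe_toBasis] at this
    exact this
  have h1 := small_dim hk (sb k) (pull_curv (gauss_curv hs) L) fun x y => hK _ _
  rw [gbc_lift (sb k) (pull (gauss β) L) (pb (lf e β) i) (fun a b c d => by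
    simp only [pull, hLe]
    exact lf_lift e β (i a) (i b) (i c) (i d))] at h1
  have h6 : (0 : ℝ) < 1 / ((4 * Real.pi) ^ k * k.factorial) := by positivity
  exact nonneg_of_mul_nonneg_right h1 h6

/-- codimension at most `k` -/
theorem level_codim [FiniteDimensional ℝ V] [FiniteDimensional ℝ W]
    (hk : Module.finrank ℝ W ≤ k) (e : OrthonormalBasis (Fin m × Bool) ℝ V)
    (β : V →ₗ[ℝ] V →ₗ[ℝ] W) (hs : ∀ x y, β x y = β y x) (hK : ∀ x y, gauss β x y x y ≤ 0) :
    0 ≤ ∑ i : Fin k × Bool → Fin m × Bool, Yf (pb (lf e β) i) := by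
  refine level_pos e β fun ξ => ?_
  rw [Finset.mul_sum]
  refine Finset.sum_nonneg fun i _ => ?_
  set L : EuclideanSpace ℝ (Fin k × Bool) →ₗ[ℝ] V :=
    ((sb k).toBasis.constr ℝ fun a => e (i a)) with hL
  have hLe : ∀ a, L (sb k a) = e (i a) := by
    intro a
    have := (sb k).toBasis.constr_basis ℝ (fun a => e (i a)) a
    rw [OrthonormalBasis.coe_toBasis] at this
    exact this
  have hs' : ∀ x y, (β.compl₁₂ L L) x y = (β.compl₁₂ L L) y x := fun x y => by
    simp only [LinearMap.compl₁₂_apply]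
    exact hs _ _
  have hK' : ∀ x y, gauss (β.compl₁₂ L L) x y x y ≤ 0 := fun x y => by
    rw [← pull_gauss]
    exact hK _ _
  have h1 : fam e β ξ i = Matrix.of fun a b => bil (β.compl₁₂ L L) ξ (sb k a) (sb k b) := by
    ext a b
    simp only [fam, Matrix.of_apply, bil_apply, LinearMap.compl₁₂_apply, hLe]
  rw [h1]
  refine (det_sign (sb k) (bil (β.compl₁₂ L L) ξ) (fun x y => by
    rw [bil_apply, bil_apply, hs']) hk ?_ ?_).1
  · intro U hU
    exact index_bound hs' hK' (fun w => 0 < inner ℝ ξ w) (by simp) U hU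
  · intro U hU
    exact index_bound hs' hK' (fun w => inner ℝ ξ w < 0) (by simp) U hU

end level

end Pool.Agent.Y489.SM
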