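import Mathlib

/-!
# Principal minors and real rooted even polynomials
-/

set_option autoImplicit false

namespace Pool.Agent.Y489.SM

open Finset Polynomial

section minors

variable {J P : Type} [Fintype J] [DecidableEq J] [Fintype P] [DecidableEq P]

theorem sum_minors (M : Matrix J J ℝ) :
    ∑ i : P → J, (Matrix.of fun a b => M (i a) (i b)).det =
      (Fintype.card P).factorial * ∑ s ∈ (univ : Finset J).powersetCard (Fintype.card P),
        (M.submatrix (Subtype.val : s → J) (Subtype.val : s → J)).det := by
  classical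
  have hni : ∀ i : P → J, ¬ Function.Injective i →
      (Matrix.of fun a b => M (i a) (i b)).det = 0 := by
    intro i hi
    simp only [Function.Injective, not_forall] at hi
    obtain ⟨a, b, hab, hne⟩ := hi
    refine Matrix.det_zero_of_row_eq hne ?_
    funext c
    simp [hab]
  have h1 : ∑ i : P → J, (Matrix.of fun a b => M (i a) (i b)).det =
      ∑ i ∈ univ.filter (fun i : P → J => Function.Injective i),
        (Matrix.of fun a b => M (i a) (i b)).det := by
    rw [Finset.sum_filter]
    refine Finset.sum_congr rfl fun i _ => ?_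
    split_ifs with h
    · rfl
    · exact hni i h
  rw [h1, ← Finset.sum_fiberwise_of_maps_to
    (t := (univ : Finset J).powersetCard (Fintype.card P)) (g := fun i : P → J => univ.image i)
    (by
      intro i hi
      rw [Finset.mem_powersetCard_univ, Finset.card_image_of_injective _ (Finset.mem_filter.1 hi).2,
        Finset.card_univ]), Finset.mul_sum]
  refine Finset.sum_congr rfl fun s hs => ?_
  have hcard : s.card = Fintype.card P := Finset.mem_powersetCard_univ.1 hs
  have h2 : ∑ e : P ≃ s, (M.submatrix (Subtype.val : s → J) (Subtype.val : s → J)).det =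
      (Fintype.card P).factorial *
        (M.submatrix (Subtype.val : s → J) (Subtype.val : s → J)).det := by
    rw [Finset.sum_const, Finset.card_univ, nsmul_eq_mul,
      Fintype.card_equiv (Fintype.equivOfCardEq (by simp [hcard]))]
  rw [← h2]
  symm
  refine Finset.sum_bij (fun (e : P ≃ s) _ => fun a => ((e a : s) : J)) ?_ ?_ ?_ ?_
  · intro e _
    simp only [Finset.mem_filter, Finset.mem_univ, true_and]
    refine ⟨fun a b hab => e.injective (Subtype.ext hab), ?_⟩
    ext x
    simp only [Finset.mem_image, Finset.mem_univ, true_and]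
    constructor
    · rintro ⟨a, rfl⟩
      exact (e a).2
    · intro hx
      exact ⟨e.symm ⟨x, hx⟩, by simp⟩
  · intro e _ e' _ h
    ext a
    exact congrFun h a
  · intro i hi
    simp only [Finset.mem_filter, Finset.mem_univ, true_and] at hi
    obtain ⟨hinj, himg⟩ := hi
    have hmem : ∀ a, i a ∈ s := fun a => by
      rw [← himg]
      exact Finset.mem_image_of_mem _ (Finset.mem_univ a)
    refine ⟨Equiv.ofBijective (fun a => (⟨i a, hmem a⟩ : s)) ⟨fun a b hab => hinj ?_, ?_⟩,
      Finset.mem_univ _, ?_⟩
    · exact congrArg Subtype.val hab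
    · rintro ⟨x, hx⟩
      rw [← himg, Finset.mem_image] at hx
      obtain ⟨a, -, ha⟩ := hx
      exact ⟨a, Subtype.ext ha⟩
    · rfl
  · intro e _
    rw [← Matrix.det_submatrix_equiv_self e]
    rfl

/-- the sum of the principal minors of even order is a coefficient of the characteristic
polynomial -/
theorem minors_coeff {m k : ℕ} (hk : k ≤ m) (M : Matrix (Fin m × Bool) (Fin m × Bool) ℝ) :
    ∑ i : Fin k × Bool → Fin m × Bool, (Matrix.of fun a b => M (i a) (i b)).det =
      (2 * k).factorial * M.charpoly.coeff (2 * (m - k)) := by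
  have hP : Fintype.card (Fin k × Bool) = 2 * k := by simp [mul_comm]
  have hJ : Fintype.card (Fin m × Bool) = 2 * m := by simp [mul_comm]
  rw [sum_minors, hP]
  have h1 := M.charpoly_coeff_eq_sum_minors (2 * k) (by omega)
  rw [hJ, show 2 * m - 2 * k = 2 * (m - k) by omega] at h1
  rw [h1, pow_mul]
  simp

end minors

section even

theorem esymm_nonneg (s : Multiset ℝ) (hs : ∀ a ∈ s, 0 ≤ a) (n : ℕ) : 0 ≤ s.esymm n := by
  rw [Multiset.esymm]
  refine Multiset.sum_nonneg fun x hx => ?_
  rw [Multiset.mem_map] at hx
  obtain ⟨t, ht, rfl⟩ := hx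
  refine Multiset.prod_nonneg fun a ha => hs a ?_
  exact Multiset.mem_of_le (Multiset.mem_powersetCard.1 ht).1 ha

/-- **Even real rooted polynomials.** -/
theorem even_coeff {m : ℕ} (lam : Fin m × Bool → ℝ) (p : ℝ[X]) (hp : p = ∏ i, (X - C (lam i)))
    (hev : p.comp (-X) = p) {k : ℕ} (hk : k ≤ m) : 0 ≤ (-1) ^ k * p.coeff (2 * (m - k)) := by
  have hJ : Fintype.card (Fin m × Bool) = 2 * m := by simp [mul_comm]
  have hmonic : p.Monic := by
    rw [hp]
    exact monic_prod_of_monic _ _ fun i _ => monic_X_sub_C _
  have hdeg : p.natDegree = 2 * m := by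
    rw [hp, natDegree_prod_of_monic _ _ fun i _ => monic_X_sub_C _]
    simp [mul_comm]
  set q := contract 2 p with hq
  have hodd : ∀ n, ¬ 2 ∣ n → p.coeff n = 0 := by
    intro n hn
    have h1 : (p.comp (-X)).coeff n = p.coeff n := by rw [hev]
    have h2 : (p.comp (-X)).coeff n = (-1) ^ n * p.coeff n := by
      have h3 : (-X : ℝ[X]) = C (-1) * X := by simp
      rw [h3, comp_C_mul_X_coeff]
      ring
    rw [h2] at h1
    have h3 : Odd n := by
      rw [← Nat.not_even_iff_odd, even_iff_two_dvd]
      exact hn
    rw [h3.neg_one_pow] at h1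
    linarith
  have hexp : expand ℝ 2 q = p := by
    ext n
    rw [coeff_expand two_pos]
    split_ifs with h
    · rw [hq, coeff_contract two_ne_zero, Nat.div_mul_cancel h]
    · exact (hodd n h).symm
  have hsq : q * q = ∏ i, (X - C (lam i ^ 2)) := by
    apply expand_injective (R := ℝ) two_pos
    rw [map_mul, hexp, map_prod]
    have h1 : p * p = p * p.comp (-X) := by rw [hev]
    rw [h1]
    have h2 : p.comp (-X) = ∏ i, (-X - C (lam i)) := by
      rw [hp, Polynomial.prod_comp]
      refine Finset.prod_congr rfl fun i _ => ?_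
      simp
    rw [h2]
    have h3 : p * ∏ i, (-X - C (lam i)) = ∏ i, (X - C (lam i)) * (-X - C (lam i)) := by
      rw [hp, Finset.prod_mul_distrib]
    rw [h3]
    have h4 : ∀ i, (X - C (lam i)) * (-X - C (lam i)) =
        (-1) * (expand ℝ 2 (X - C (lam i ^ 2))) := by
      intro i
      rw [map_sub, expand_X, expand_C, C_pow]
      ring
    rw [Finset.prod_congr rfl fun i _ => h4 i, Finset.prod_mul_distrib, Finset.prod_const,
      Finset.card_univ, hJ, pow_mul]
    simp
  have hqdeg : q.natDegree = m := by
    have h1 := congrArg natDegree hexp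
    rw [natDegree_expand, hdeg] at h1
    omega
  have hqmonic : q.Monic := by
    rw [Monic, leadingCoeff, hqdeg, hq, coeff_contract two_ne_zero]
    have := hmonic.coeff_natDegree
    rw [hdeg] at this
    rw [mul_comm m 2]
    exact this
  have hne : (∏ i, (X - C (lam i ^ 2))) ≠ 0 :=
    (monic_prod_of_monic _ _ fun i _ => monic_X_sub_C _).ne_zero
  have hsplit : q.Splits := by
    refine Splits.of_dvd ?_ hne ⟨q, hsq.symm⟩
    exact Splits.prod fun i _ => Splits.X_sub_C _
  have hroots : ∀ a ∈ q.roots, 0 ≤ a := by
    intro a ha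
    have h1 : q.eval a = 0 := (mem_roots hqmonic.ne_zero).1 ha
    have h2 := congrArg (eval a) hsq
    rw [eval_mul, h1, mul_zero, eval_prod] at h2
    obtain ⟨i, -, hi⟩ := Finset.prod_eq_zero_iff.1 h2.symm
    simp only [eval_sub, eval_X, eval_C] at hi
    have : a = lam i ^ 2 := by linarith
    rw [this]
    positivity
  have hcard : q.roots.card = m := by
    rw [← hqdeg]
    exact (Splits.natDegree_eq_card_roots hsplit).symm
  have hcoeff : q.coeff (m - k) = (-1) ^ k * q.roots.esymm k := by
    have h1 := hsplit.eq_prod_roots_of_monic hqmonic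
    have h2 := Multiset.prod_X_sub_C_coeff q.roots (k := m - k) (by omega)
    rw [← h1, hcard, Nat.sub_sub_self hk] at h2
    exact h2
  have h1 : p.coeff (2 * (m - k)) = q.coeff (m - k) := by
    rw [hq, coeff_contract two_ne_zero, mul_comm]
  rw [h1, hcoeff, ← mul_assoc, ← mul_pow]
  simp only [mul_neg, mul_one, neg_neg, one_pow, one_mul]
  exact esymm_nonneg _ hroots k

end even

end Pool.Agent.Y489.SM
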