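import Pool.Agent.Y489.SM.Ga
import Pool.Agent.Y489.SM.Gb

/-!
# The criterion and its consequences
-/

set_option autoImplicit false

namespace Pool.Agent.Y489.SM

open Finset Polynomial Pool.Agent.W666.GB

variable {m : ℕ} {V W : Type} [NormedAddCommGroup V] [InnerProductSpace ℝ V]
  [NormedAddCommGroup W] [InnerProductSpace ℝ W]

/-- **The criterion.** -/
theorem criterion [FiniteDimensional ℝ W] (e : OrthonormalBasis (Fin m × Bool) ℝ V)
    (β : V →ₗ[ℝ] V →ₗ[ℝ] W) (hs : ∀ x y, β x y = β y x) {c : ℝ} (hc : 0 ≤ c)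
    (h : ∀ k : ℕ, 0 < k → k ≤ m → (c = 0 → k = m) →
      (∀ ξ : W, 0 ≤ (-1) ^ k *
        (Matrix.of fun i j => inner ℝ ξ (β (e i) (e j))).charpoly.coeff (2 * (m - k))) ∨
      ((k ≤ 2 ∨ Module.finrank ℝ W ≤ k) ∧ ∀ x y, gauss β x y x y ≤ 0)) :
    roundGB m c ≤ (-1) ^ m * gbc e (shift c (gauss β)) := by
  have hfin : FiniteDimensional ℝ V := e.toBasis.finiteDimensional_of_finite
  refine shift_bound' e (gauss β) (lf e β) (lf_lift e β) hc fun k hk0 hkm hck => ?_
  rcases h k hk0 hkm hck with h1 | ⟨h1 | h1, hK⟩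
  · refine level_pos e β fun ξ => ?_
    have h2 := minors_coeff hkm (Matrix.of fun i j => inner ℝ ξ (β (e i) (e j)))
    have h3 : ∑ i : Fin k × Bool → Fin m × Bool, (fam e β ξ i).det =
        (2 * k).factorial * (Matrix.of fun i j => inner ℝ ξ (β (e i) (e j))).charpoly.coeff
          (2 * (m - k)) := h2
    rw [h3]
    have h4 := h1 ξ
    have h5 : (0 : ℝ) ≤ (2 * k).factorial := Nat.cast_nonneg _
    nlinarith [mul_nonneg h5 h4]
  · exact level_small h1 e β hs hK
  · exact level_codim h1 e β hs hK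

/-- austere second fundamental forms satisfy the criterion -/
theorem austere_coeff (e : OrthonormalBasis (Fin m × Bool) ℝ V)
    (β : V →ₗ[ℝ] V →ₗ[ℝ] W) (hs : ∀ x y, β x y = β y x) (ξ : W)
    (hev : (Matrix.of fun i j => inner ℝ ξ (β (e i) (e j))).charpoly.comp
      (-X) = (Matrix.of fun i j => inner ℝ ξ (β (e i) (e j))).charpoly) {k : ℕ} (hk : k ≤ m) :
    0 ≤ (-1) ^ k *
      (Matrix.of fun i j => inner ℝ ξ (β (e i) (e j))).charpoly.coeff (2 * (m - k)) := by
  obtain ⟨lam, v, -, -, -, hlam⟩ := exists_diag e (bil β ξ)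
    (fun x y => by rw [bil_apply, bil_apply, hs])
  exact even_coeff lam _ hlam hev hk

/-- saddle second fundamental forms -/
theorem saddle_coeff (e : OrthonormalBasis (Fin m × Bool) ℝ V)
    (β : V →ₗ[ℝ] V →ₗ[ℝ] W) (hs : ∀ x y, β x y = β y x)
    (hp : ∀ (ξ : W) (U : Submodule ℝ V), (∀ x ∈ U, x ≠ 0 → 0 < inner ℝ ξ (β x x)) →
      Module.finrank ℝ U ≤ m) (ξ : W) :
    0 ≤ (-1) ^ m *
      (Matrix.of fun i j => inner ℝ ξ (β (e i) (e j))).charpoly.coeff (2 * (m - m)) := by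
  have h1 := (det_sign e (bil β ξ) (fun x y => by rw [bil_apply, bil_apply, hs]) le_rfl
    (fun U hU => hp ξ U hU) (fun U hU => hp (-ξ) U fun x hx hx0 => by
      have := hU x hx hx0
      rw [bil_apply] at this
      rw [inner_neg_left]
      linarith)).1
  have h2 : (Matrix.of fun i j => bil β ξ (e i) (e j)).det =
      (Matrix.of fun i j => inner ℝ ξ (β (e i) (e j))).charpoly.coeff (2 * (m - m)) := by
    have h3 := (Matrix.of fun i j => inner ℝ ξ (β (e i) (e j))).det_eq_sign_charpoly_coeff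
    have hJ : Fintype.card (Fin m × Bool) = 2 * m := by simp [mul_comm]
    rw [hJ, pow_mul] at h3
    simp only [Nat.sub_self, mul_zero]
    have h4 : (Matrix.of fun i j => bil β ξ (e i) (e j)) =
        (Matrix.of fun i j => inner ℝ ξ (β (e i) (e j))) := rfl
    rw [h4, h3]
    simp
  rwa [h2] at h1

/-- the integrated form -/
theorem integrated {M : Type} [MeasurableSpace M] (μ : MeasureTheory.Measure M)
    (K : CurvField m M) (c : M → ℝ) (hc : ∀ p, 0 ≤ c p)
    (h : ∀ p, roundGB m (c p) ≤ (-1) ^ m * K.gb p) :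
    0 ≤ (-1) ^ m * ∫ p, K.gb p ∂μ ∧ (MeasureTheory.Integrable K.gb μ →
      ∫ p, roundGB m (c p) ∂μ ≤ (-1) ^ m * ∫ p, K.gb p ∂μ) := by
  have h0 : ∀ p, 0 ≤ roundGB m (c p) := fun p =>
    Pool.Agent.W669.HD.roundGB_nonneg (hc p)
  rw [← MeasureTheory.integral_const_mul]
  refine ⟨MeasureTheory.integral_nonneg fun p => (h0 p).trans (h p), fun hi => ?_⟩
  refine MeasureTheory.integral_mono_of_nonneg (Filter.Eventually.of_forall h0)
    (hi.const_mul _) (Filter.Eventually.of_forall h)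

end Pool.Agent.Y489.SM
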