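import Mathlib

set_option autoImplicit false

/-!
# Gaussian moments and positivity of the full contraction of a nonnegative form
-/

namespace Pool.Agent.Y489.SM

open MeasureTheory Finset

/-- the Gaussian weight -/
noncomputable def wt (x : ℝ) : ℝ := Real.exp (-(1 / 2) * x ^ 2)

theorem wt_pos (x : ℝ) : 0 < wt x := Real.exp_pos _

theorem integrable_pow_wt (n : ℕ) : Integrable fun x : ℝ => x ^ n * wt x := by
  have h := integrable_rpow_mul_exp_neg_mul_sq (b := 1 / 2) (by norm_num) (s := (n : ℝ))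
    (by have : (0 : ℝ) ≤ n := Nat.cast_nonneg n
        linarith)
  simpa [wt, Real.rpow_natCast] using h

/-- the moments of the weight -/
noncomputable def mu (n : ℕ) : ℝ := ∫ x : ℝ, x ^ n * wt x

theorem mu_zero_pos : 0 < mu 0 := by
  unfold mu
  simp only [pow_zero, one_mul]
  have h : ∫ x : ℝ, wt x = Real.sqrt (Real.pi / (1 / 2)) := integral_gaussian (1 / 2)
  rw [h]
  exact Real.sqrt_pos.2 (by positivity)

theorem hasDerivAt_wt (x : ℝ) : HasDerivAt wt (-(x * wt x)) x := by
  have h1 : HasDerivAt (fun x : ℝ => -(1 / 2) * x ^ 2) (-(1 / 2) * (2 * x)) x := by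
    simpa using ((hasDerivAt_pow 2 x).const_mul (-(1 / 2 : ℝ)))
  have h2 := h1.exp
  have h3 : -(x * wt x) = Real.exp (-(1 / 2) * x ^ 2) * (-(1 / 2) * (2 * x)) := by
    unfold wt
    ring
  rw [h3]
  exact h2

theorem mu_one : mu 1 = 0 := by
  have h := integral_eq_zero_of_hasDerivAt_of_integrable (f := wt) (f' := fun x => -(x * wt x))
    hasDerivAt_wt (by simpa using (integrable_pow_wt 1).neg) (by simpa using integrable_pow_wt 0)
  rw [integral_neg] at h
  unfold mu
  simp only [pow_one]
  linarith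

theorem mu_add_two (n : ℕ) : mu (n + 2) = (n + 1) * mu n := by
  have h := integral_eq_zero_of_hasDerivAt_of_integrable
    (f := fun x => x ^ (n + 1) * wt x)
    (f' := fun x => ((n + 1 : ℕ) : ℝ) * (x ^ n * wt x) - x ^ (n + 2) * wt x)
    (fun x => by
      have h1 := (hasDerivAt_pow (n + 1) x).mul (hasDerivAt_wt x)
      have h2 : ((n + 1 : ℕ) : ℝ) * (x ^ n * wt x) - x ^ (n + 2) * wt x =
          ((n + 1 : ℕ) : ℝ) * x ^ (n + 1 - 1) * wt x + x ^ (n + 1) * -(x * wt x) := by
        rw [show n + 1 - 1 = n from rfl]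
        ring
      rw [h2]
      exact h1)
    (((integrable_pow_wt n).const_mul _).sub (integrable_pow_wt (n + 2)))
    (integrable_pow_wt (n + 1))
  rw [integral_sub ((integrable_pow_wt n).const_mul _) (integrable_pow_wt (n + 2)),
    integral_const_mul] at h
  unfold mu
  push_cast at h
  linarith

theorem mu_succ (n : ℕ) : mu (n + 1) = n * mu (n - 1) := by
  cases n with
  | zero => simp [mu_one]
  | succ n => rw [mu_add_two]; push_cast; simp

section wick

variable {K : Type*} [Fintype K] [DecidableEq K] {J : Type*} [Fintype J]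

/-- number of places where `β` takes the value `k` -/
def cnt (β : J → K) (k : K) : ℕ := (univ.filter fun j => β j = k).card

/-- the moment of a monomial -/
noncomputable def wick (β : J → K) : ℝ := ∏ k, mu (cnt β k)

theorem integral_monomial (β : J → K) :
    ∫ ζ : K → ℝ, (∏ j, ζ (β j)) * ∏ k, wt (ζ k) = wick β := by
  have h1 : ∀ ζ : K → ℝ, (∏ j, ζ (β j)) * ∏ k, wt (ζ k) = ∏ k, ((ζ k) ^ cnt β k * wt (ζ k)) := by
    intro ζ
    rw [Finset.prod_mul_distrib]
    congr 1
    rw [← Finset.prod_fiberwise_of_maps_to (s := univ) (t := univ) (g := β) (fun _ _ => mem_univ _)]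
    refine Finset.prod_congr rfl fun k _ => ?_
    rw [cnt, Finset.prod_congr rfl (g := fun _ => ζ k), Finset.prod_const]
    intro j hj
    rw [(Finset.mem_filter.1 hj).2]
  simp only [h1]
  rw [integral_fintype_prod_volume_eq_prod (fun k (x : ℝ) => x ^ cnt β k * wt x)]
  rfl

theorem integrable_monomial (β : J → K) :
    Integrable fun ζ : K → ℝ => (∏ j, ζ (β j)) * ∏ k, wt (ζ k) := by
  have h1 : ∀ ζ : K → ℝ, (∏ j, ζ (β j)) * ∏ k, wt (ζ k) = ∏ k, ((ζ k) ^ cnt β k * wt (ζ k)) := by
    intro ζ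
    rw [Finset.prod_mul_distrib]
    congr 1
    rw [← Finset.prod_fiberwise_of_maps_to (s := univ) (t := univ) (g := β) (fun _ _ => mem_univ _)]
    refine Finset.prod_congr rfl fun k _ => ?_
    rw [cnt, Finset.prod_congr rfl (g := fun _ => ζ k), Finset.prod_const]
    intro j hj
    rw [(Finset.mem_filter.1 hj).2]
  simp only [h1]
  exact Integrable.fintype_prod (f := fun k (x : ℝ) => x ^ cnt β k * wt x)
    (fun k => integrable_pow_wt (cnt β k))

/-- a form which is nonnegative everywhere has nonnegative Gaussian mean -/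
theorem wick_nonneg [DecidableEq J] (F : (J → K) → ℝ)
    (h : ∀ ζ : K → ℝ, 0 ≤ ∑ β : J → K, (∏ j, ζ (β j)) * F β) :
    0 ≤ ∑ β : J → K, wick β * F β := by
  have h1 : ∑ β : J → K, wick β * F β =
      ∫ ζ : K → ℝ, (∑ β : J → K, (∏ j, ζ (β j)) * F β) * ∏ k, wt (ζ k) := by
    have h2 : ∀ ζ : K → ℝ, (∑ β : J → K, (∏ j, ζ (β j)) * F β) * ∏ k, wt (ζ k) =
        ∑ β : J → K, ((∏ j, ζ (β j)) * ∏ k, wt (ζ k)) * F β := by
      intro ζ
      rw [Finset.sum_mul]
      exact Finset.sum_congr rfl fun β _ => by ring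
    simp only [h2]
    rw [integral_finsetSum _ fun β _ => (integrable_monomial β).mul_const _]
    refine Finset.sum_congr rfl fun β _ => ?_
    rw [integral_mul_const, integral_monomial]
  rw [h1]
  exact integral_nonneg fun ζ => mul_nonneg (h ζ) (Finset.prod_nonneg fun k _ => (wt_pos _).le)

end wick

end Pool.Agent.Y489.SM
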