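import Mathlib

/-!
# Symmetric bilinear forms: diagonal bases and the sign of the determinant
-/

set_option autoImplicit false

namespace Pool.Agent.Y489.SM

open Finset Polynomial

variable {J V : Type} [Fintype J] [DecidableEq J] [NormedAddCommGroup V] [InnerProductSpace ℝ V]

/-- A basis in which a symmetric bilinear form is diagonal, orthonormal for the inner product. -/
theorem exists_diag (e : OrthonormalBasis J ℝ V) (B : V →ₗ[ℝ] V →ₗ[ℝ] ℝ)
    (hB : ∀ x y, B x y = B y x) :
    ∃ (lam : J → ℝ) (v : J → V), LinearIndependent ℝ v ∧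
      (∀ i j, B (v i) (v j) = if i = j then lam i else 0) ∧
      (Matrix.of fun i j => B (e i) (e j)).det = ∏ i, lam i ∧
      (Matrix.of fun i j => B (e i) (e j)).charpoly = ∏ i, (X - C (lam i)) := by
  set M : Matrix J J ℝ := Matrix.of fun i j => B (e i) (e j) with hM
  have hH : M.IsHermitian := by
    ext i j
    simp [hM, hB (e i) (e j)]
  refine ⟨hH.eigenvalues, fun i => ∑ k, (hH.eigenvectorBasis i) k • e k, ?_, ?_, ?_, ?_⟩
  · have h1 : (fun i => ∑ k, (hH.eigenvectorBasis i) k • e k) =
        e.repr.symm.toLinearEquiv ∘ hH.eigenvectorBasis := by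
      funext i
      simp only [Function.comp]
      rw [LinearIsometryEquiv.coe_toLinearEquiv, e.sum_repr_symm]
    rw [h1]
    exact (hH.eigenvectorBasis.orthonormal.linearIndependent).map' _
      (LinearEquiv.ker _)
  · intro i j
    have h1 : B (∑ k, (hH.eigenvectorBasis i) k • e k) (∑ k, (hH.eigenvectorBasis j) k • e k) =
        ∑ k, (hH.eigenvectorBasis i) k * (M.mulVec (hH.eigenvectorBasis j)) k := by
      simp only [map_sum, LinearMap.sum_apply, map_smul, LinearMap.smul_apply, smul_eq_mul,
        Matrix.mulVec, dotProduct, hM, Matrix.of_apply, Finset.mul_sum]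
      try rw [Finset.sum_comm]
      refine Finset.sum_congr rfl fun k _ => ?_
      refine Finset.sum_congr rfl fun l _ => ?_
      ring
    rw [h1, hH.mulVec_eigenvectorBasis j]
    have h2 : inner ℝ (hH.eigenvectorBasis i) (hH.eigenvectorBasis j) =
        if i = j then (1 : ℝ) else 0 := orthonormal_iff_ite.1 hH.eigenvectorBasis.orthonormal i j
    rw [PiLp.inner_apply] at h2
    have h3 : ∑ k, (hH.eigenvectorBasis i) k * (hH.eigenvalues j • ⇑(hH.eigenvectorBasis j)) k =
        hH.eigenvalues j * ∑ k, inner ℝ ((hH.eigenvectorBasis i) k) ((hH.eigenvectorBasis j) k) := by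
      rw [Finset.mul_sum]
      refine Finset.sum_congr rfl fun k _ => ?_
      simp only [Pi.smul_apply, smul_eq_mul, RCLike.inner_apply, conj_trivial]
      ring
    rw [h3, h2]
    by_cases hij : i = j
    · subst hij
      simp
    · simp [hij]
  · have := hH.det_eq_prod_eigenvalues
    simpa using this
  · have := hH.charpoly_eq
    simpa using this

end Pool.Agent.Y489.SM
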