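import Mathlib

/-!
# Bilinear forms with nonpositive curvature: asymptotic vectors and the nullity
-/

set_option autoImplicit false

namespace Pool.Agent.Y489.SM

open Finset

variable {V W : Type} [NormedAddCommGroup V] [InnerProductSpace ℝ V] [NormedAddCommGroup W]
  [InnerProductSpace ℝ W]

/-- A quartic polynomial without constant term that is nonnegative on the line. -/
theorem quartic (a b c d : ℝ) (h : ∀ t : ℝ, 0 ≤ a * t + b * t ^ 2 + c * t ^ 3 + d * t ^ 4) :
    a = 0 ∧ 0 ≤ b := by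
  have ha : a = 0 := by
    by_contra hne
    set K : ℝ := |b| + |c| + |d| + 1 with hK
    have hKpos : 0 < K := by positivity
    have haK : 0 < |a| := abs_pos.2 hne
    set s : ℝ := min 1 (|a| / (2 * K)) with hs
    have hs0 : 0 < s := lt_min one_pos (by positivity)
    have hs1 : s ≤ 1 := min_le_left _ _
    have hs2 : s * (2 * K) ≤ |a| := by
      have := min_le_right 1 (|a| / (2 * K))
      rw [← hs] at this
      rwa [le_div_iff₀ (by positivity)] at this
    have key : ∀ t : ℝ, |t| = s → b * t ^ 2 + c * t ^ 3 + d * t ^ 4 ≤ s * (s * K) := by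
      intro t ht
      have h1 : b * t ^ 2 ≤ |b| * s ^ 2 := by
        rw [← ht, sq_abs]
        exact mul_le_mul_of_nonneg_right (le_abs_self _) (sq_nonneg _)
      have h2 : c * t ^ 3 ≤ |c| * s ^ 2 := by
        have : c * t ^ 3 ≤ |c| * s ^ 3 := by
          calc c * t ^ 3 ≤ |c * t ^ 3| := le_abs_self _
            _ = |c| * s ^ 3 := by rw [abs_mul, abs_pow, ht]
        refine this.trans (mul_le_mul_of_nonneg_left ?_ (abs_nonneg _))
        exact pow_le_pow_of_le_one hs0.le hs1 (by norm_num)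
      have h3 : d * t ^ 4 ≤ |d| * s ^ 2 := by
        have : d * t ^ 4 ≤ |d| * s ^ 4 := by
          calc d * t ^ 4 ≤ |d * t ^ 4| := le_abs_self _
            _ = |d| * s ^ 4 := by rw [abs_mul, abs_pow, ht]
        refine this.trans (mul_le_mul_of_nonneg_left ?_ (abs_nonneg _))
        exact pow_le_pow_of_le_one hs0.le hs1 (by norm_num)
      nlinarith [sq_nonneg s]
    rcases lt_or_gt_of_ne hne with hneg | hpos
    · have h1 := h s
      have h2 := key s (abs_of_pos hs0)
      rw [abs_of_neg hneg] at hs2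
      nlinarith
    · have h1 := h (-s)
      have h2 := key (-s) (by rw [abs_neg, abs_of_pos hs0])
      rw [abs_of_pos hpos] at hs2
      nlinarith
  refine ⟨ha, ?_⟩
  by_contra hb
  push Not at hb
  set K : ℝ := |c| + |d| + 1 with hK
  have hKpos : 0 < K := by positivity
  set s : ℝ := min 1 (-b / (2 * K)) with hs
  have hs0 : 0 < s := lt_min one_pos (div_pos (by linarith) (by positivity))
  have hs1 : s ≤ 1 := min_le_left _ _
  have hs2 : s * (2 * K) ≤ -b := by
    have := min_le_right 1 (-b / (2 * K))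
    rw [← hs] at this
    rwa [le_div_iff₀ (by positivity)] at this
  have h1 := h s
  rw [ha] at h1
  have h2 : c * s ^ 3 ≤ |c| * s ^ 3 := mul_le_mul_of_nonneg_right (le_abs_self _) (by positivity)
  have h3 : d * s ^ 4 ≤ |d| * s ^ 3 := by
    have : d * s ^ 4 ≤ |d| * s ^ 4 := mul_le_mul_of_nonneg_right (le_abs_self _) (by positivity)
    refine this.trans (mul_le_mul_of_nonneg_left ?_ (abs_nonneg _))
    exact pow_le_pow_of_le_one hs0.le hs1 (by norm_num)
  have h4 : 0 < s ^ 2 := by positivity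
  have h5 : 0 ≤ s ^ 2 * (b + s * K) := by nlinarith [pow_pos hs0 3]
  have h6 : b + s * K < 0 := by nlinarith
  nlinarith

/-- **Asymptotic vectors** (Otsuki's lemma). -/
theorem otsuki [FiniteDimensional ℝ V] [FiniteDimensional ℝ W] (β : V →ₗ[ℝ] V →ₗ[ℝ] W)
    (hs : ∀ x y, β x y = β y x)
    (hK : ∀ x y, inner ℝ (β x x) (β y y) - ‖β x y‖ ^ 2 ≤ 0) (U : Submodule ℝ W)
    (hU : ∀ x y, β x y ∈ U) (hd : Module.finrank ℝ U < Module.finrank ℝ V) :
    ∃ x, x ≠ 0 ∧ β x x = 0 := by
  have hnt : Nontrivial V := Module.nontrivial_of_finrank_pos (R := ℝ) (by omega)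
  have hcont : Continuous fun x : V => ‖β x x‖ ^ 2 := by
    have h1 : Continuous fun x : V => β x x := by
      set b := Module.finBasis ℝ V
      have h2 : ∀ x : V, β x x = ∑ i, ∑ j, (b.repr x i * b.repr x j) • β (b i) (b j) := by
        intro x
        conv_lhs => rw [← b.sum_repr x]
        simp only [map_sum, LinearMap.sum_apply, map_smul, LinearMap.smul_apply,
          Finset.smul_sum, smul_smul]
        refine Finset.sum_congr rfl fun i _ => Finset.sum_congr rfl fun j _ => ?_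
        rw [hs (b j) (b i)]
      simp only [h2]
      have h3 : ∀ i, Continuous fun x : V => b.repr x i := fun i =>
        LinearMap.continuous_of_finiteDimensional (b.coord i)
      fun_prop
    exact h1.norm.pow 2
  obtain ⟨x0, hx0, hmin⟩ := (isCompact_sphere (0 : V) 1).exists_isMinOn
    (NormedSpace.sphere_nonempty.2 zero_le_one) hcont.continuousOn
  have hx1 : ‖x0‖ = 1 := by simpa using hx0
  have hx0ne : x0 ≠ 0 := by
    intro h
    rw [h, norm_zero] at hx1
    exact zero_ne_one hx1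
  by_cases hz : β x0 x0 = 0
  · exact ⟨x0, hx0ne, hz⟩
  exfalso
  have hpos : 0 < ‖β x0 x0‖ ^ 2 := by
    have := norm_pos_iff.2 hz
    positivity
  have hhom : ∀ v : V, ‖v‖ ^ 4 * ‖β x0 x0‖ ^ 2 ≤ ‖β v v‖ ^ 2 := by
    intro v
    by_cases hv : v = 0
    · subst hv
      simp
    · have hvn : ‖v‖ ≠ 0 := norm_ne_zero_iff.2 hv
      have h1 : ‖v‖⁻¹ • v ∈ Metric.sphere (0 : V) 1 := by
        rw [mem_sphere_zero_iff_norm, norm_smul, norm_inv, norm_norm, inv_mul_cancel₀ hvn]
      have h2 := hmin h1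
      simp only [Set.mem_ofPred_eq] at h2
      have h2' : β (‖v‖⁻¹ • v) (‖v‖⁻¹ • v) = (‖v‖⁻¹ * ‖v‖⁻¹) • β v v := by
        simp only [map_smul, LinearMap.smul_apply, smul_smul]
      rw [h2', norm_smul, mul_pow] at h2
      have h3 : ‖‖v‖⁻¹ * ‖v‖⁻¹‖ ^ 2 = (‖v‖ ^ 4)⁻¹ := by
        rw [norm_mul, norm_inv, norm_norm]
        field_simp
      rw [h3, ← div_eq_inv_mul, le_div_iff₀ (by positivity)] at h2
      linarith
  have hperp : ∀ y : V, inner ℝ x0 y = 0 →
      inner ℝ (β x0 x0) (β x0 y) = 0 ∧ (β x0 y = 0 → y = 0) := by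
    intro y hy
    have hq : ∀ t : ℝ, 0 ≤ (4 * inner ℝ (β x0 x0) (β x0 y)) * t +
        (4 * ‖β x0 y‖ ^ 2 + 2 * inner ℝ (β x0 x0) (β y y) - 2 * ‖β x0 x0‖ ^ 2 * ‖y‖ ^ 2) * t ^ 2 +
        (4 * inner ℝ (β x0 y) (β y y)) * t ^ 3 +
        (‖β y y‖ ^ 2 - ‖β x0 x0‖ ^ 2 * ‖y‖ ^ 4) * t ^ 4 := by
      intro t
      have h1 := hhom (x0 + t • y)
      have h2 : ‖x0 + t • y‖ ^ 2 = 1 + t ^ 2 * ‖y‖ ^ 2 := by
        rw [norm_add_sq_real, hx1, inner_smul_right, hy, norm_smul, mul_pow, Real.norm_eq_abs,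
          sq_abs]
        ring
      have h3 : ‖x0 + t • y‖ ^ 4 = (1 + t ^ 2 * ‖y‖ ^ 2) ^ 2 := by
        rw [← h2]
        ring
      have h4 : β (x0 + t • y) (x0 + t • y) = β x0 x0 + (2 * t) • β x0 y + t ^ 2 • β y y := by
        simp only [map_add, LinearMap.add_apply, map_smul, LinearMap.smul_apply, hs y x0]
        module
      have h5 : ‖β (x0 + t • y) (x0 + t • y)‖ ^ 2 = ‖β x0 x0‖ ^ 2 + 4 * t ^ 2 * ‖β x0 y‖ ^ 2 +
          t ^ 4 * ‖β y y‖ ^ 2 + 4 * t * inner ℝ (β x0 x0) (β x0 y) +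
          2 * t ^ 2 * inner ℝ (β x0 x0) (β y y) + 4 * t ^ 3 * inner ℝ (β x0 y) (β y y) := by
        rw [h4, norm_add_sq_real, norm_add_sq_real]
        simp only [inner_add_left, inner_smul_left, inner_smul_right, norm_smul, mul_pow,
          Real.norm_eq_abs, conj_trivial, sq_abs, abs_pow]
        norm_num
        ring
      rw [h3, h5] at h1
      nlinarith
    obtain ⟨h1, h2⟩ := quartic _ _ _ _ hq
    refine ⟨by linarith, fun h3 => ?_⟩
    have h4 := hK x0 y
    rw [h3] at h2 h4
    simp only [norm_zero] at h2 h4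
    have h5 : ‖β x0 x0‖ ^ 2 * ‖y‖ ^ 2 ≤ 0 := by nlinarith
    have h6 : ‖y‖ ^ 2 ≤ 0 := by
      by_contra hcon
      push Not at hcon
      have := mul_pos hpos hcon
      linarith
    have h7 : ‖y‖ = 0 := by nlinarith [norm_nonneg y]
    exact norm_eq_zero.1 h7
  have hinj : Function.Injective ((β x0).codRestrict U (hU x0)) := by
    rw [← LinearMap.ker_eq_bot, LinearMap.ker_eq_bot']
    intro v hv
    have hv0 : β x0 v = 0 := by
      have := congrArg Subtype.val hv
      simpa using this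
    set s : ℝ := inner ℝ x0 v with hsdef
    have hy : inner ℝ x0 (v - s • x0) = 0 := by
      rw [inner_sub_right, inner_smul_right, real_inner_self_eq_norm_sq, hx1, ← hsdef]
      ring
    obtain ⟨h1, h2⟩ := hperp _ hy
    have h3 : β x0 (v - s • x0) = (-s) • β x0 x0 := by
      rw [map_sub, map_smul, hv0]
      module
    rw [h3, inner_smul_right, real_inner_self_eq_norm_sq] at h1
    have hs0 : s = 0 := by
      rcases mul_eq_zero.1 h1 with h | h
      · linarith
      · linarith
    have h4 := h2 (by rw [h3, hs0]; simp)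
    rw [hs0] at h4
    simpa using h4
  have := LinearMap.finrank_le_finrank_of_injective hinj
  omega

end Pool.Agent.Y489.SM
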