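import Pool.Agent.Y489.SM.Wk
import Pool.Agent.W666.GB.Lift

set_option autoImplicit false

/-!
# The double alternating form of a sum of squares of symmetric matrices as a Gaussian mean
-/

namespace Pool.Agent.Y489.SM

open Finset
open Pool.Agent.W666.GB (sn sn_mul sn_inv sn_mul_self MD Yf)

section det

variable {J : Type} [Fintype J] [DecidableEq J]

theorem sn_cast (σ : Equiv.Perm J) : ((sn σ : ℝ) : ℂ) = ((Equiv.Perm.sign σ : ℤ) : ℂ) := by
  simp [sn]

theorem sum_sn_det (M : J → J → ℂ) :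
    ∑ σ : Equiv.Perm J, ∑ τ : Equiv.Perm J, ((sn σ * sn τ : ℝ) : ℂ) * ∏ j, M (σ j) (τ j) =
      (Fintype.card J).factorial * Matrix.det (Matrix.of M) := by
  have h1 : ∀ σ : Equiv.Perm J, ∑ τ : Equiv.Perm J, ((sn σ * sn τ : ℝ) : ℂ) * ∏ j, M (σ j) (τ j) =
      Matrix.det (Matrix.of M) := by
    intro σ
    rw [← Matrix.det_transpose, Matrix.det_apply', ← Equiv.sum_comp (Equiv.mulRight σ)]
    refine Finset.sum_congr rfl fun τ _ => ?_
    simp only [Equiv.coe_mulRight, sn_mul, Equiv.Perm.mul_apply, Matrix.transpose_apply,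
      Matrix.of_apply]
    rw [Equiv.prod_comp σ (fun i => M i (τ i)), ← sn_cast]
    have h2 : sn σ * (sn τ * sn σ) = sn τ := by
      have := sn_mul_self σ
      linear_combination (sn τ) * this
    rw [h2]
  rw [Finset.sum_congr rfl fun σ _ => h1 σ, Finset.sum_const, Finset.card_univ,
    Fintype.card_perm, nsmul_eq_mul]

end det

section poly

variable {K : Type} [Fintype K] [DecidableEq K] {J : Type} [Fintype J] [DecidableEq J]

/-- coefficients of the form `ζ ↦ Re ∑ sgn sgn ∏ (∑ ζ ω B)` -/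
noncomputable def FF (ω : K → ℂ) (B : K → J → J → ℝ) (β : J → K) : ℝ :=
  (∏ j, ω (β j)).re * MD (fun j => B (β j))

theorem MD_perm (X : J → J → J → ℝ) (π : Equiv.Perm J) : MD (fun j => X (π j)) = MD X := by
  unfold MD
  rw [← Equiv.sum_comp (Equiv.mulRight π)]
  refine Finset.sum_congr rfl fun σ _ => ?_
  rw [← Equiv.sum_comp (Equiv.mulRight π)]
  refine Finset.sum_congr rfl fun τ _ => ?_
  simp only [Equiv.coe_mulRight, sn_mul, Equiv.Perm.mul_apply]
  rw [Equiv.prod_comp π (fun a => X a (σ a) (τ a))]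
  have := sn_mul_self π
  linear_combination (sn σ * sn τ * ∏ a, X a (σ a) (τ a)) * this

omit [Fintype K] [DecidableEq K] in
theorem FF_sy (ω : K → ℂ) (B : K → J → J → ℝ) : Sy (FF ω B) := by
  intro π β
  unfold FF
  rw [Equiv.prod_comp π (fun j => ω (β j)), MD_perm (fun j => B (β j)) π]

omit [DecidableEq K] in
theorem FF_poly (ω : K → ℂ) (B : K → J → J → ℝ) (ζ : K → ℝ) :
    ∑ β : J → K, (∏ j, ζ (β j)) * FF ω B β = (Fintype.card J).factorial *
      (Matrix.det (Matrix.of fun i j => ∑ k, (ζ k : ℂ) * ω k * (B k i j : ℂ))).re := by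
  have h1 := sum_sn_det (fun i j : J => ∑ k, (ζ k : ℂ) * ω k * (B k i j : ℂ))
  have h2 : ((Fintype.card J).factorial : ℝ) *
      (Matrix.det (Matrix.of fun i j => ∑ k, (ζ k : ℂ) * ω k * (B k i j : ℂ))).re =
      (((Fintype.card J).factorial : ℂ) *
        Matrix.det (Matrix.of fun i j => ∑ k, (ζ k : ℂ) * ω k * (B k i j : ℂ))).re := by
    rw [← Complex.ofReal_natCast, Complex.re_ofReal_mul]
  rw [h2, ← h1]
  have h3 : ∀ σ τ : Equiv.Perm J, ((sn σ * sn τ : ℝ) : ℂ) *
      ∏ j, ∑ k, (ζ k : ℂ) * ω k * (B k (σ j) (τ j) : ℂ) =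
      ∑ β : J → K, ((∏ j, ζ (β j) : ℝ) : ℂ) * ((∏ j, ω (β j)) *
        ((sn σ * sn τ * ∏ j, B (β j) (σ j) (τ j) : ℝ) : ℂ)) := by
    intro σ τ
    rw [Fintype.prod_sum, Finset.mul_sum]
    refine Finset.sum_congr rfl fun β _ => ?_
    simp only [Finset.prod_mul_distrib]
    push_cast
    ring
  simp only [h3]
  rw [Finset.sum_congr rfl fun σ _ => Finset.sum_comm, Finset.sum_comm]
  rw [Complex.re_sum]
  refine Finset.sum_congr rfl fun β _ => ?_
  simp only [← Finset.mul_sum]
  rw [Complex.re_ofReal_mul]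
  congr 1
  unfold FF MD
  have h4 : ∑ σ : Equiv.Perm J, ∑ τ : Equiv.Perm J,
      ((sn σ * sn τ * ∏ j, B (β j) (σ j) (τ j) : ℝ) : ℂ) =
      ((∑ σ : Equiv.Perm J, ∑ τ : Equiv.Perm J,
        sn σ * sn τ * ∏ j, B (β j) (σ j) (τ j) : ℝ) : ℂ) := by
    push_cast
    rfl
  rw [h4, Complex.re_mul_ofReal]

end poly

section main

variable {K : Type} [Fintype K] [DecidableEq K] {m : ℕ}

omit [DecidableEq K] in
theorem Yf_sum (w : K → ℝ) (B : K → Fin m × Bool → Fin m × Bool → ℝ) :
    Yf (fun a b c d => ∑ k, w k * (B k a b * B k c d)) =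
      ∑ α : Fin m → K, (∏ b, w (α b)) * MD (fun j : Fin m × Bool => B (α j.1)) := by
  unfold Yf
  have h1 : ∀ π π' : Equiv.Perm (Fin m × Bool), sn π * sn π' * ∏ b : Fin m,
      ∑ k, w k * (B k (π (b, false)) (π' (b, false)) * B k (π (b, true)) (π' (b, true))) =
      ∑ α : Fin m → K, (∏ b, w (α b)) * (sn π * sn π' *
        ∏ j : Fin m × Bool, B (α j.1) (π j) (π' j)) := by
    intro π π'
    rw [Fintype.prod_sum, Finset.mul_sum]
    refine Finset.sum_congr rfl fun α _ => ?_
    rw [Finset.prod_mul_distrib, Fintype.prod_prod_type]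
    have : ∀ b : Fin m, ∏ y : Bool, B (α b) (π (b, y)) (π' (b, y)) =
        B (α b) (π (b, false)) (π' (b, false)) * B (α b) (π (b, true)) (π' (b, true)) := by
      intro b
      rw [Fintype.prod_bool, mul_comm]
    simp only [this]
    ring
  simp only [h1]
  rw [Finset.sum_congr rfl fun σ _ => Finset.sum_comm, Finset.sum_comm]
  refine Finset.sum_congr rfl fun α _ => ?_
  simp only [← Finset.mul_sum]
  rfl

/-- **The sign of the double alternating form** of `∑ w_k B_k ⊗ B_k` from the determinants of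
`∑ ζ_k ω_k B_k`, `ω_k² = w_k`. -/
theorem Yf_bound (ω : Option K → ℂ) (w : Option K → ℝ) (hw : ∀ k, ω k ^ 2 = (w k : ℂ))
    (B : Option K → Fin m × Bool → Fin m × Bool → ℝ) (s h : ℝ)
    (H : ∀ ζ : Option K → ℝ, h * (ζ none ^ 2) ^ m ≤ s *
      (Matrix.det (Matrix.of fun i j => ∑ k, (ζ k : ℂ) * ω k * (B k i j : ℂ))).re) :
    (2 * m).factorial * h ≤ s * Yf (fun a b c d => ∑ k, w k * (B k a b * B k c d)) := by
  classical
  set F : (Fin m × Bool → Option K) → ℝ := fun β => s * FF ω B β -
    (2 * m).factorial * h * (if ∀ j, β j = none then 1 else 0) with hF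
  have hcard : Fintype.card (Fin m × Bool) = 2 * m := by
    rw [Fintype.card_prod, Fintype.card_fin, Fintype.card_bool, mul_comm]
  have hsy : Sy F := by
    intro π β
    simp only [hF]
    rw [FF_sy ω B π β]
    have : (∀ j, β (π j) = none) ↔ ∀ j, β j = none :=
      ⟨fun h j => by simpa using h (π.symm j), fun h j => h (π j)⟩
    simp only [this]
  have hpos : ∀ ζ : Option K → ℝ, 0 ≤ ∑ β : Fin m × Bool → Option K, (∏ j, ζ (β j)) * F β := by
    intro ζ
    have h1 : ∑ β : Fin m × Bool → Option K, (∏ j, ζ (β j)) * F β =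
        s * ∑ β : Fin m × Bool → Option K, (∏ j, ζ (β j)) * FF ω B β -
        (2 * m).factorial * h * ∑ β : Fin m × Bool → Option K,
          (∏ j, ζ (β j)) * (if ∀ j, β j = none then 1 else 0) := by
      rw [Finset.mul_sum, Finset.mul_sum, ← Finset.sum_sub_distrib]
      refine Finset.sum_congr rfl fun β _ => ?_
      simp only [hF]
      ring
    have h2 : ∑ β : Fin m × Bool → Option K,
          (∏ j, ζ (β j)) * (if ∀ j, β j = none then (1 : ℝ) else 0) = (ζ none ^ 2) ^ m := by
      rw [Finset.sum_eq_single (fun _ => none)]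
      · simp only [Finset.prod_const, Finset.card_univ, hcard, implies_true, if_true, mul_one]
        rw [pow_mul]
      · intro β _ hβ
        rw [if_neg, mul_zero]
        intro hn
        exact hβ (funext hn)
      · intro hn
        exact absurd (Finset.mem_univ _) hn
    rw [h1, h2, FF_poly, hcard]
    have h3 := H ζ
    have h4 : (0 : ℝ) ≤ (2 * m).factorial := Nat.cast_nonneg _
    nlinarith [mul_le_mul_of_nonneg_left h3 h4]
  have h5 := pairs_nonneg m F hsy hpos
  have h6 : ∑ α : Fin m → Option K, F (fun x => α x.1) =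
      s * Yf (fun a b c d => ∑ k, w k * (B k a b * B k c d)) - (2 * m).factorial * h := by
    rw [Yf_sum, Finset.mul_sum]
    have h7 : ∑ α : Fin m → Option K, (if ∀ j : Fin m × Bool, α j.1 = none then (1 : ℝ) else 0) =
        1 := by
      rw [Finset.sum_eq_single (fun _ => none)]
      · simp
      · intro β _ hβ
        rw [if_neg]
        intro hn
        exact hβ (funext fun b => hn (b, true))
      · intro hn
        exact absurd (Finset.mem_univ _) hn
    have h8 : ∀ α : Fin m → Option K, F (fun x => α x.1) =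
        s * ((∏ b, w (α b)) * MD (fun j : Fin m × Bool => B (α j.1))) -
        (2 * m).factorial * h *
          (if ∀ j : Fin m × Bool, α j.1 = none then (1 : ℝ) else 0) := by
      intro α
      simp only [hF]
      congr 2
      unfold FF
      congr 1
      rw [Fintype.prod_prod_type]
      have h9 : ∀ b : Fin m, ∏ _y : Bool, ω (α b) = (w (α b) : ℂ) := by
        intro b
        rw [Fintype.prod_bool, ← hw]
        ring
      simp only [h9, ← Complex.ofReal_prod, Complex.ofReal_re]
    simp only [h8, Finset.sum_sub_distrib, ← Finset.mul_sum, h7, mul_one]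
  rw [h6] at h5
  linarith

end main

end Pool.Agent.Y489.SM
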