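import Pool.Agent.Y489.SM.Gs

set_option autoImplicit false

/-!
# The Gaussian mean of a symmetric form is a multiple of its full contraction
-/

namespace Pool.Agent.Y489.SM

open Finset

section gen

variable {K : Type} [Fintype K] [DecidableEq K]

/-- symmetric functions of tuples -/
def Sy {J : Type} (F : (J → K) → ℝ) : Prop :=
  ∀ (π : Equiv.Perm J) (β : J → K), F (fun j => β (π j)) = F β

/-- the Gaussian mean -/
noncomputable def LW {J : Type} [Fintype J] [DecidableEq J] (F : (J → K) → ℝ) : ℝ :=
  ∑ β : J → K, wick β * F β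

variable {J : Type} [Fintype J]

omit [Fintype K] in
theorem cnt_equiv {J' : Type} [Fintype J'] (e : J' ≃ J) (β : J → K) (k : K) :
    cnt (fun j => β (e j)) k = cnt β k := by
  unfold cnt
  rw [← Finset.card_map e.toEmbedding]
  congr 1
  ext j
  simp only [Finset.mem_map_equiv, Finset.mem_filter, Finset.mem_univ, true_and,
    Equiv.apply_symm_apply]

theorem wick_equiv {J' : Type} [Fintype J'] (e : J' ≃ J) (β : J → K) :
    wick (fun j => β (e j)) = wick β := by
  unfold wick
  exact Finset.prod_congr rfl fun k _ => by rw [cnt_equiv]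

theorem LW_equiv [DecidableEq J] {J' : Type} [Fintype J'] [DecidableEq J'] (e : J' ≃ J)
    (F : (J → K) → ℝ) : LW F = LW (fun β' : J' → K => F (fun j => β' (e.symm j))) := by
  unfold LW
  refine Fintype.sum_equiv (Equiv.arrowCongr e.symm (Equiv.refl K)) _ _ fun β => ?_
  have h1 : (Equiv.arrowCongr e.symm (Equiv.refl K)) β = fun j => β (e j) := rfl
  rw [h1, wick_equiv]
  simp

/-- prepend a value -/
def oc (a : K) (β : J → K) : Option J → K := fun o => o.elim a β

omit [Fintype K] [DecidableEq K] [Fintype J] in
theorem oc_eta (β : Option J → K) : oc (β none) (fun j => β (some j)) = β := by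
  funext o
  cases o <;> rfl

omit [Fintype K] in
theorem cnt_oc (a : K) (β : J → K) (k : K) :
    cnt (oc a β) k = (if a = k then 1 else 0) + cnt β k := by
  unfold cnt
  rw [← Finset.card_filter_add_card_filter_not (s := univ.filter fun j : Option J => oc a β j = k)
    (fun o => o = none)] 
  congr 1
  · split_ifs with h
    · rw [Finset.card_eq_one]
      refine ⟨none, ?_⟩
      ext o
      simp only [Finset.mem_filter, Finset.mem_univ, true_and, Finset.mem_singleton]
      constructor
      · exact fun h => h.2
      · rintro rfl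
        exact ⟨h, rfl⟩
    · rw [Finset.card_eq_zero, Finset.filter_eq_empty_iff]
      rintro o ho rfl
      exact h (Finset.mem_filter.1 ho).2
  · rw [← Finset.card_map (s := univ.filter fun j : J => β j = k) Function.Embedding.some]
    congr 1
    ext o
    simp only [Finset.mem_filter, Finset.mem_univ, true_and, Finset.mem_map,
      Function.Embedding.some_apply]
    constructor
    · rintro ⟨h1, h2⟩
      cases o with
      | none => exact absurd rfl h2
      | some j => exact ⟨j, h1, rfl⟩
    · rintro ⟨j, hj, rfl⟩
      exact ⟨hj, by simp⟩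

omit [DecidableEq K] in
theorem sum_option [DecidableEq J] (f : (Option J → K) → ℝ) :
    ∑ β : Option J → K, f β = ∑ a : K, ∑ β : J → K, f (oc a β) := by
  rw [← Fintype.sum_prod_type' (f := fun a (β : J → K) => f (oc a β))]
  refine Fintype.sum_equiv (Equiv.piOptionEquivProd (β := fun _ => K)) _ _ fun β => ?_
  conv_lhs => rw [← oc_eta β]
  rfl

/-- the moment with one factor removed -/
noncomputable def Vw (a : K) (β : J → K) : ℝ :=
  mu (cnt β a - 1) * ∏ k ∈ univ.erase a, mu (cnt β k)

theorem wick_oc (a : K) (β : J → K) :
    wick (oc a β) = ∑ j : J, if β j = a then Vw a β else 0 := by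
  have h1 : ∑ j : J, (if β j = a then Vw a β else 0) = cnt β a * Vw a β := by
    rw [← Finset.sum_filter, Finset.sum_const, nsmul_eq_mul]
    rfl
  rw [h1]
  unfold wick Vw
  rw [← Finset.mul_prod_erase univ _ (Finset.mem_univ a)]
  have h2 : ∏ k ∈ univ.erase a, mu (cnt (oc a β) k) = ∏ k ∈ univ.erase a, mu (cnt β k) := by
    refine Finset.prod_congr rfl fun k hk => ?_
    rw [cnt_oc, if_neg (Finset.ne_of_mem_erase hk).symm, zero_add]
  rw [h2, cnt_oc, if_pos rfl, add_comm, mu_succ]
  ring

theorem Vw_oc (a : K) (γ : J → K) : Vw a (oc a γ) = wick γ := by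
  unfold wick Vw
  rw [← Finset.mul_prod_erase univ _ (Finset.mem_univ a)]
  have h2 : ∏ k ∈ univ.erase a, mu (cnt (oc a γ) k) = ∏ k ∈ univ.erase a, mu (cnt γ k) := by
    refine Finset.prod_congr rfl fun k hk => ?_
    rw [cnt_oc, if_neg (Finset.ne_of_mem_erase hk).symm, zero_add]
  rw [h2, cnt_oc, if_pos rfl]
  simp

theorem Vw_equiv (π : Equiv.Perm J) (a : K) (β : J → K) : Vw a (fun j => β (π j)) = Vw a β := by
  unfold Vw
  rw [cnt_equiv]
  congr 1
  exact Finset.prod_congr rfl fun k _ => by rw [cnt_equiv]

omit [Fintype K] [DecidableEq K] [Fintype J] in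
theorem oc_perm (a : K) (π : Equiv.Perm J) (β : J → K) :
    oc a (fun j => β (π j)) = fun o => oc a β (Equiv.optionCongr π o) := by
  funext o
  cases o <;> rfl

/-- **Integration by parts.** -/
theorem LW_step [DecidableEq J] (F : (Option (Option J) → K) → ℝ) (hF : Sy F) :
    LW F = (Fintype.card J + 1) * LW (fun γ : J → K => ∑ a : K, F (oc a (oc a γ))) := by
  unfold LW
  rw [sum_option]
  have h1 : ∀ a : K, ∑ β : Option J → K, wick (oc a β) * F (oc a β) =
      ∑ j : Option J, ∑ β : Option J → K, (if β none = a then Vw a β else 0) * F (oc a β) := by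
    intro a
    simp only [wick_oc, Finset.sum_mul]
    rw [Finset.sum_comm]
    refine Finset.sum_congr rfl fun j _ => ?_
    refine Fintype.sum_equiv (Equiv.arrowCongr (Equiv.swap j none) (Equiv.refl K)) _ _ fun β => ?_
    have h2 : (Equiv.arrowCongr (Equiv.swap j none) (Equiv.refl K)) β =
        fun i => β (Equiv.swap j none i) := by
      funext i
      simp [Equiv.arrowCongr]
    rw [h2, Vw_equiv, oc_perm, hF]
    simp
  simp only [h1, Finset.sum_const, Finset.card_univ, Fintype.card_option, nsmul_eq_mul]
  have h3 : ∀ a : K, ∑ β : Option J → K, (if β none = a then Vw a β else 0) * F (oc a β) =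
      ∑ γ : J → K, wick γ * F (oc a (oc a γ)) := by
    intro a
    rw [sum_option, Finset.sum_eq_single a]
    · refine Finset.sum_congr rfl fun γ _ => ?_
      have : oc a γ none = a := rfl
      rw [if_pos this, Vw_oc]
    · intro b _ hb
      refine Finset.sum_eq_zero fun γ _ => ?_
      have : oc b γ none = b := rfl
      rw [if_neg (by rw [this]; exact hb), zero_mul]
    · intro h
      exact absurd (Finset.mem_univ _) h
  simp only [h3, ← Finset.mul_sum]
  push_cast
  congr 1
  rw [Finset.sum_comm]
  simp only [Finset.mul_sum]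

end gen

section pairs

variable {K : Type} [Fintype K] [DecidableEq K]

/-- the first pair in front -/
def eS (m : ℕ) : Option (Option (Fin m × Bool)) ≃ Fin (m + 1) × Bool where
  toFun o := o.elim (0, false) fun o' => o'.elim (0, true) fun x => (x.1.succ, x.2)
  invFun y := Fin.cases (motive := fun _ => Option (Option (Fin m × Bool)))
    (cond y.2 (some none) none) (fun i => some (some (i, y.2))) y.1
  left_inv := by
    intro o
    rcases o with _ | _ | ⟨i, b⟩ <;> rfl
  right_inv := by
    rintro ⟨i, b⟩
    refine Fin.cases ?_ (fun i => ?_) i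
    · cases b <;> rfl
    · rfl

/-- the Gaussian mean is a positive multiple of the sum over the diagonal of the pairs -/
theorem LW_pairs (m : ℕ) : ∃ C : ℝ, 0 < C ∧ ∀ F : (Fin m × Bool → K) → ℝ, Sy F →
    LW F = C * ∑ α : Fin m → K, F (fun x => α x.1) := by
  induction m with
  | zero =>
    refine ⟨mu 0 ^ Fintype.card K, pow_pos mu_zero_pos _, fun F _ => ?_⟩
    unfold LW
    rw [Fintype.sum_unique, Fintype.sum_unique]
    have h1 : wick (default : Fin 0 × Bool → K) = mu 0 ^ Fintype.card K := by
      unfold wick
      have : ∀ k : K, cnt (default : Fin 0 × Bool → K) k = 0 := by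
        intro k
        unfold cnt
        rw [Finset.card_eq_zero, Finset.filter_eq_empty_iff]
        rintro ⟨i, _⟩
        exact i.elim0
      simp only [this, Finset.prod_const, Finset.card_univ]
    rw [h1]
    congr 2
  | succ m ih =>
    obtain ⟨C, hC, h⟩ := ih
    refine ⟨(Fintype.card (Fin m × Bool) + 1) * C, by positivity, fun F hF => ?_⟩
    rw [LW_equiv (eS m) F, LW_step]
    · rw [h]
      · rw [mul_assoc]
        congr 2
        have h2 : ∑ α : Fin (m + 1) → K, F (fun x => α x.1) =
            ∑ q : K × (Fin m → K), F (fun x => (Fin.cons q.1 q.2 : Fin (m + 1) → K) x.1) := by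
          symm
          refine Fintype.sum_equiv (Fin.consEquiv fun _ => K) _ _ fun q => ?_
          rfl
        rw [h2, Fintype.sum_prod_type_right]
        refine Finset.sum_congr rfl fun α _ => Finset.sum_congr rfl fun a _ => ?_
        congr 1
        funext x
        obtain ⟨i, b⟩ := x
        refine Fin.cases ?_ (fun i => ?_) i
        · cases b <;> rfl
        · rfl
      · intro π β
        refine Finset.sum_congr rfl fun a _ => ?_
        have h3 := hF ((eS m).symm.trans ((Equiv.optionCongr (Equiv.optionCongr π)).trans (eS m)))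
          (fun j => oc a (oc a β) ((eS m).symm j))
        rw [← h3]
        congr 1
        funext j
        simp only [Equiv.trans_apply, Equiv.symm_apply_apply]
        generalize (eS m).symm j = o
        rcases o with _ | _ | x <;> rfl
    · intro π β
      have h3 := hF ((eS m).symm.trans (π.trans (eS m))) (fun j => β ((eS m).symm j))
      beta_reduce
      rw [← h3]
      congr 1
      funext j
      simp only [Equiv.trans_apply, Equiv.symm_apply_apply]

/-- **Positivity of the full contraction.** If the symmetric form with coefficients `F` is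
nonnegative, the sum of the coefficients over the diagonal of the pairs is nonnegative. -/
theorem pairs_nonneg (m : ℕ) (F : (Fin m × Bool → K) → ℝ) (hF : Sy F)
    (h : ∀ ζ : K → ℝ, 0 ≤ ∑ β : Fin m × Bool → K, (∏ j, ζ (β j)) * F β) :
    0 ≤ ∑ α : Fin m → K, F (fun x => α x.1) := by
  obtain ⟨C, hC, hL⟩ := LW_pairs (K := K) m
  have h1 := wick_nonneg F h
  have h2 := hL F hF
  unfold LW at h2
  rw [h2] at h1
  by_contra hn
  push Not at hn
  nlinarith

end pairs

end Pool.Agent.Y489.SM
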